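import Mathlib

/-!
# Block S, LEAF S2: products of local functions, Chinese remainder theorem (Mathlib only)

PROOF.  Induction on `S` (the statement for all `q`).  `S = ∅`: `q = 1`, one element, both sides are `1`.  `S = insert p S'`, `q' = ∏ p ∈ S', p`,
`q = p q'`, `(p, q') = 1`: the map `(ι → ZMod q) → (ι → ZMod p) × (ι → ZMod q')`, `a ↦ (a_i.val mod p, a_i.val mod q')` is a bijection
(`ZMod.chineseRemainder` in every coordinate) and for `r ∈ S'` the residue of `a_i.val` mod `r` is that of its image in `ZMod q'`.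
So the sum is `(∑_b f p b) * (the sum for S') ≤ g p * ∏ g` (all terms are `≥ 0`, `0 ≤ g` by `hg` and `hf`).
(Compare leaf VA2 `crt_zero` of `MP_10e784_agV`: the same bijection.)
-/

namespace MWS

open Finset

/-- the bijection of the Chinese remainder theorem for vectors -/
private noncomputable def S2_E {ι : Type} {m n : ℕ} (h : Nat.Coprime m n) :
    (ι → ZMod (m * n)) ≃ (ι → ZMod m) × (ι → ZMod n) where
  toFun a := (fun i => (ZMod.chineseRemainder h (a i)).1, fun i => (ZMod.chineseRemainder h (a i)).2)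
  invFun b := fun i => (ZMod.chineseRemainder h).symm (b.1 i, b.2 i)
  left_inv a := by
    funext i
    exact (ZMod.chineseRemainder h).symm_apply_apply (a i)
  right_inv b := by
    refine Prod.ext (funext fun i => ?_) (funext fun i => ?_)
    · show (ZMod.chineseRemainder h ((ZMod.chineseRemainder h).symm (b.1 i, b.2 i))).1 = b.1 i
      rw [RingEquiv.apply_symm_apply]
    · show (ZMod.chineseRemainder h ((ZMod.chineseRemainder h).symm (b.1 i, b.2 i))).2 = b.2 i
      rw [RingEquiv.apply_symm_apply]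

private theorem S2_fst {m n : ℕ} [NeZero m] [NeZero n] (h : Nat.Coprime m n) (x : ZMod (m * n)) :
    (ZMod.chineseRemainder h x).1 = ((x.val : ℕ) : ZMod m) := by
  have : NeZero (m * n) := ⟨mul_ne_zero (NeZero.ne m) (NeZero.ne n)⟩
  have e : x = ((x.val : ℕ) : ZMod (m * n)) := (ZMod.natCast_zmod_val x).symm
  conv_lhs => rw [e]
  rw [map_natCast]
  rfl

private theorem S2_snd {m n : ℕ} [NeZero m] [NeZero n] (h : Nat.Coprime m n) (x : ZMod (m * n)) :
    (ZMod.chineseRemainder h x).2 = ((x.val : ℕ) : ZMod n) := by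
  have : NeZero (m * n) := ⟨mul_ne_zero (NeZero.ne m) (NeZero.ne n)⟩
  have e : x = ((x.val : ℕ) : ZMod (m * n)) := (ZMod.natCast_zmod_val x).symm
  conv_lhs => rw [e]
  rw [map_natCast]
  rfl

private theorem S2_val {r n : ℕ} (h : r ∣ n) (k : ℕ) :
    ((((k : ℕ) : ZMod n).val : ℕ) : ZMod r) = (k : ZMod r) := by
  rw [ZMod.val_natCast, ZMod.natCast_eq_natCast_iff]
  exact (Nat.mod_modEq k n).of_dvd h

private theorem S2_sum {ι : Type} [Fintype ι] [DecidableEq ι] {m n : ℕ} [NeZero m] [NeZero n] [NeZero (m * n)]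
    (h : Nat.Coprime m n) (F : (ι → ZMod m) → ℝ) (G : (ι → ZMod n) → ℝ) :
    ∑ a : ι → ZMod (m * n), F (fun i => ((a i).val : ZMod m)) * G (fun i => ((a i).val : ZMod n)) =
      (∑ b, F b) * ∑ c, G c := by
  have h1 : ∀ a : ι → ZMod (m * n), F (fun i => ((a i).val : ZMod m)) * G (fun i => ((a i).val : ZMod n)) =
      F (S2_E h a).1 * G (S2_E h a).2 := by
    intro a
    have e1 : (S2_E h a).1 = fun i => ((a i).val : ZMod m) := funext fun i => S2_fst h (a i)
    have e2 : (S2_E h a).2 = fun i => ((a i).val : ZMod n) := funext fun i => S2_snd h (a i)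
    rw [e1, e2]
  rw [Finset.sum_congr rfl fun a _ => h1 a,
    Equiv.sum_comp (S2_E h) (fun b : (ι → ZMod m) × (ι → ZMod n) => F b.1 * G b.2), Fintype.sum_prod_type,
    Finset.sum_mul_sum]

theorem crt_le {ι : Type} [Fintype ι] [DecidableEq ι] (S : Finset ℕ) (hS : ∀ p ∈ S, p.Prime) (q : ℕ) [NeZero q]
    (hq : q = ∏ p ∈ S, p) (f : (p : ℕ) → (ι → ZMod p) → ℝ) (hf : ∀ p b, 0 ≤ f p b) (g : ℕ → ℝ)
    (hg : ∀ p ∈ S, ∀ [NeZero p], ∑ b : ι → ZMod p, f p b ≤ g p) :
    ∑ a : ι → ZMod q, ∏ p ∈ S, f p (fun i => ((a i).val : ZMod p)) ≤ ∏ p ∈ S, g p := by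
  classical
  induction S using Finset.induction_on generalizing q with
  | empty =>
    rw [Finset.prod_empty] at hq
    subst hq
    simp
  | insert p S' hp ih =>
    rw [Finset.prod_insert hp] at hq
    have hpp : p.Prime := hS p (Finset.mem_insert_self p S')
    obtain ⟨q', hq'⟩ : ∃ q', q' = ∏ r ∈ S', r := ⟨_, rfl⟩
    rw [← hq'] at hq
    subst hq
    have : NeZero p := ⟨hpp.ne_zero⟩
    have hq0 : q' ≠ 0 := fun h => NeZero.ne (p * q') (by rw [h, mul_zero])
    have : NeZero q' := ⟨hq0⟩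
    have hcop : Nat.Coprime p q' := by
      rw [hq']
      exact Nat.Coprime.prod_right fun r hr => (Nat.coprime_primes hpp
        (hS r (Finset.mem_insert_of_mem hr))).2 fun h => hp (h ▸ hr)
    have h1 := ih (fun r hr => hS r (Finset.mem_insert_of_mem hr)) q' hq'
      (fun r hr => hg r (Finset.mem_insert_of_mem hr))
    have h2 : ∀ a : ι → ZMod (p * q'), ∏ r ∈ insert p S', f r (fun i => ((a i).val : ZMod r)) =
        f p (fun i => ((a i).val : ZMod p)) *
          (fun c : ι → ZMod q' => ∏ r ∈ S', f r (fun i => ((c i).val : ZMod r))) (fun i => ((a i).val : ZMod q')) := by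
      intro a
      rw [Finset.prod_insert hp]
      congr 1
      refine Finset.prod_congr rfl fun r hr => ?_
      congr 1
      funext i
      exact (S2_val (hq' ▸ Finset.dvd_prod_of_mem _ hr) _).symm
    rw [Finset.sum_congr rfl fun a _ => h2 a, S2_sum hcop (f p)
      (fun c : ι → ZMod q' => ∏ r ∈ S', f r (fun i => ((c i).val : ZMod r))), Finset.prod_insert hp]
    have h3 := hg p (Finset.mem_insert_self p S')
    refine mul_le_mul h3 h1 ?_ ?_
    · exact Finset.sum_nonneg fun c _ => Finset.prod_nonneg fun r _ => hf _ _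
    · exact (Finset.sum_nonneg fun b _ => hf _ _).trans h3

end MWS
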