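import Pool.Agent.Lib.MP_10e784_agBS.S1
import Pool.Agent.Lib.MP_10e784_agBS.S2

/-!
# Block S, LEAF S3: products of local functions over boxes

PROOF.  `q = ∏ p ∈ S, p`, `G a = ∏ p ∈ S, f p (a_i.val mod p)`; for an integer `t` and `p ∣ q`: `((t : ZMod q).val : ZMod p) = (t : ZMod p)`
(`ZMod.natCast_val`, `ZMod.cast_intCast`).  `box_sum` and `crt_le` with `g p * p ^ N`, `N = card ι`;
`∏ (4 h_i / q) = (∏ 4 h_i) / q ^ N` and `∏_p p ^ N = q ^ N`.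
-/

namespace MWS

open Finset

theorem box_crt {ι : Type} [Fintype ι] [DecidableEq ι] (S : Finset ℕ) (hS : ∀ p ∈ S, p.Prime) (h : ι → ℕ)
    (hq : ∀ i, ∏ p ∈ S, p ≤ h i) (f : (p : ℕ) → (ι → ZMod p) → ℝ) (hf : ∀ p b, 0 ≤ f p b) (g : ℕ → ℝ)
    (hg : ∀ p ∈ S, ∀ [NeZero p], ∑ b : ι → ZMod p, f p b ≤ g p * (p : ℝ) ^ Fintype.card ι) :
    ∑ c ∈ Fintype.piFinset (fun i => Icc (-(h i : ℤ)) (h i)), ∏ p ∈ S, f p (fun i => ((c i : ℤ) : ZMod p)) ≤
      (∏ i, (4 * (h i : ℝ))) * ∏ p ∈ S, g p := by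
  obtain ⟨q, hqd⟩ : ∃ q : ℕ, q = ∏ p ∈ S, p := ⟨_, rfl⟩
  have hq0 : 0 < q := by
    rw [hqd]
    exact Finset.prod_pos fun p hp => (hS p hp).pos
  have : NeZero q := ⟨hq0.ne'⟩
  have hdvd : ∀ p ∈ S, p ∣ q := fun p hp => by
    rw [hqd]
    exact Finset.dvd_prod_of_mem _ hp
  have hred : ∀ c : ι → ℤ, ∏ p ∈ S, f p (fun i => ((c i : ℤ) : ZMod p)) =
      (fun a : ι → ZMod q => ∏ p ∈ S, f p (fun i => ((a i).val : ZMod p))) (fun i => ((c i : ℤ) : ZMod q)) := by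
    intro c
    refine Finset.prod_congr rfl fun p hp => ?_
    congr 1
    funext i
    rw [ZMod.natCast_val, ZMod.cast_intCast (hdvd p hp)]
  rw [Finset.sum_congr rfl fun c _ => hred c]
  have h1 := box_sum q h (fun i => by rw [hqd]; exact hq i)
    (fun a : ι → ZMod q => ∏ p ∈ S, f p (fun i => ((a i).val : ZMod p)))
    (fun a => Finset.prod_nonneg fun p _ => hf p _)
  have h2 := crt_le S hS q hqd f hf (fun p => g p * (p : ℝ) ^ Fintype.card ι) (fun p hp => hg p hp)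
  refine h1.trans ((mul_le_mul_of_nonneg_left h2 (Finset.prod_nonneg fun i _ => by positivity)).trans (le_of_eq ?_))
  have hq1 : (0 : ℝ) < q := by exact_mod_cast hq0
  have e1 : ∏ p ∈ S, (g p * (p : ℝ) ^ Fintype.card ι) = (∏ p ∈ S, g p) * (q : ℝ) ^ Fintype.card ι := by
    rw [Finset.prod_mul_distrib, Finset.prod_pow, hqd]
    push_cast
    rfl
  have e2 : ∏ i, (4 * (h i : ℝ) / q) = (∏ i, (4 * (h i : ℝ))) / (q : ℝ) ^ Fintype.card ι := by
    rw [Finset.prod_div_distrib, Finset.prod_const, Finset.card_univ]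
  rw [e1, e2]
  have : (q : ℝ) ^ Fintype.card ι ≠ 0 := pow_ne_zero _ hq1.ne'
  field_simp

end MWS
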