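import Pool.Agent.Lib.MP_10e784_agBS.Adm
import Pool.Agent.Lib.MP_10e784_agBS.S3
import Pool.Agent.Lib.MP_10e784_agV.VM
import Pool.Agent.Lib.MP_10e784_agW.RC
import Pool.Agent.Lib.MP_10e784_agW.RD

/-!
# Block S, LEAF S4: one curve, the classes modulo `L`

PROOF.  For `p ∈ T` the number `L` kills `Pt (ZMod p) A B` (`Nat.card = na + 1` as in `kill` of leaf `agW/RD` with `RD_equiv`, `card_nsmul_eq_zero'`), so
`rd p (r i + L • Q) = rd p (r i)` (`rd_class`).  So the `c` of the statement lie in the union over `i : Fin n` of the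
`{c in the box : ∀ p ∈ T, c mod p ∈ R p (rd p (r i))}` (`VM_union` with `b = 1`), and by `box_crt` (all `h i = H`,
`f p b = 1` if `b ∈ R p (rd p (r i))`, else `0`, `g p = 1 - κ`) each of these sets has at most `(4 H) ^ N (1 - κ) ^ |T|` elements
(`VM_card`; `Nat.card (R p z) = ∑_b f p b`).
-/

namespace MWS

open Finset

private theorem S4_kill {p : ℕ} [Fact p.Prime] {α β : ℤ} (hp2 : p ≠ 2) (hd : ¬ (p : ℤ) ∣ dsc α β) {L : ℕ}
    (hn : na α β p + 1 ∣ L) (P : Pt (ZMod p) α β) : L • P = 0 := by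
  have h1 : Nat.card (Pt (ZMod p) α β) = na α β p + 1 := by
    rw [Nat.card_congr (RD_equiv hp2 hd), Finite.card_option]
    rfl
  obtain ⟨k, rfl⟩ := hn
  rw [mul_comm, mul_smul, ← h1, card_nsmul_eq_zero', smul_zero]

private theorem S4_class {p : ℕ} (hp : p.Prime) {A B : ℤ} (hp2 : p ≠ 2) (hd : ¬ (p : ℤ) ∣ dsc A B) {L : ℕ}
    (hn : na A B p + 1 ∣ L) (P Q : Pt ℚ A B) : rd p (P + L • Q) = rd p P := by
  have : Fact p.Prime := ⟨hp⟩
  exact rd_class hp2 hd L (S4_kill hp2 hd hn) P Q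

theorem fixed_curve {ι : Type} [Fintype ι] [DecidableEq ι] {A B : ℤ} {κ : ℝ} (h0 : 0 ≤ κ) (h1 : κ ≤ 1)
    {R : (p : ℕ) → Option (ZMod p × ZMod p) → Set (ι → ZMod p)} (hR : Dens R κ) {L n : ℕ} (r : Fin n → Pt ℚ A B)
    (hr : ∀ P : Pt ℚ A B, ∃ i, ∃ Q : Pt ℚ A B, P = r i + L • Q) (T : Finset ℕ)
    (hT : ∀ p ∈ T, p.Prime ∧ 11 ≤ p ∧ ¬ (p : ℤ) ∣ dsc A B ∧ na A B p + 1 ∣ L) {H : ℕ} (hq : ∏ p ∈ T, p ≤ H) :
    (Nat.card {c : ι → ℤ // (∀ i, |c i| ≤ (H : ℤ)) ∧ ∃ P : Pt ℚ A B, Adm R c P} : ℝ) ≤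
      n * ((4 * (H : ℝ)) ^ Fintype.card ι * (1 - κ) ^ T.card) := by
  classical
  have hU := VM_union (ι := ι) (H := H) (N := n)
    (fun c => ∃ P : Pt ℚ A B, Adm R c P)
    (fun i c => ∀ p ∈ T, (fun j => ((c j : ℤ) : ZMod p)) ∈ R p (rd p (r i)))
    (by
      rintro c - ⟨P, hP⟩
      obtain ⟨i, Q, hi⟩ := hr P
      refine ⟨i, fun p hp => ?_⟩
      obtain ⟨g1, g2, g3, g4⟩ := hT p hp
      have h6 := hP p g1 g2 g3
      rwa [hi, S4_class g1 (by omega) g3 g4] at h6)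
    1 ((4 * (H : ℝ)) ^ Fintype.card ι * (1 - κ) ^ T.card) zero_le_one
    (fun i => by
      rw [mul_one, VM_card]
      have hb := box_crt (ι := ι) T (fun p hp => (hT p hp).1) (fun _ => H) (fun _ => hq)
        (fun p b => if b ∈ R p (rd p (r i)) then (1 : ℝ) else 0)
        (fun p b => by split_ifs <;> norm_num) (fun _ => 1 - κ)
        (fun p hp hne => by
          have h3 := hR p (hT p hp).1 (hT p hp).2.1 (rd p (r i))
          rw [sum_boole]
          refine le_trans (le_of_eq ?_) h3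
          rw [Nat.card_eq_fintype_card, Fintype.card_subtype])
      rw [prod_const, prod_const, card_univ] at hb
      refine le_trans (le_of_eq ?_) hb
      rw [card_filter]
      push_cast
      refine sum_congr rfl fun c _ => ?_
      rw [prod_boole])
  simpa using hU

end MWS
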