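import Pool.Agent.Lib.MP_10e784_agBS.Defs
import Pool.Agent.Lib.MP_10e784_agW.FA1

/-!
# Block S, LEAF S6: the group order of a good curve divides `L`

PROOF.  `n = nz + 1 ≤ 2 p + 1 ≤ 3 X ≤ 2 ^ e` (for each `x` at most two `y`: `nz_le`).  Let `q` be a prime divisor of `n = l ^ k m`.  If `q ∣ l ^ k` then `q = l ≤ 4 U ≤ Y`.
If `q ∣ m`: `q U ^ k ≤ m U ^ k ≤ m l ^ k = n ≤ 3 X ≤ Y U ^ k`, so `q ≤ Y`.  `dvd_prim` (with `N = n`, `Nat.log 2 n ≤ e`, `pow_dvd_pow`).
PROOF of `nz_le`: the affine points are the union over `x` of the `y` with `y² = x³ + a x + b`, at most `2` (roots of `X² - c`,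
`Polynomial.card_nthRoots` or: if `y₀² = c` then `y² = c` iff `y = ± y₀`).
-/

namespace MWS

open Finset

private theorem s6_sq_card {p : ℕ} [Fact p.Prime] (c : ZMod p) :
    (univ.filter fun y : ZMod p => y ^ 2 = c).card ≤ 2 := by
  classical
  by_cases h : ∃ y0 : ZMod p, y0 ^ 2 = c
  · obtain ⟨y0, hy0⟩ := h
    have hsub : (univ.filter fun y : ZMod p => y ^ 2 = c) ⊆ ({y0, -y0} : Finset (ZMod p)) := by
      intro y hy
      rw [mem_filter] at hy
      have h2 : y ^ 2 = y0 ^ 2 := by rw [hy.2, hy0]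
      rw [sq_eq_sq_iff_eq_or_eq_neg] at h2
      rw [mem_insert, mem_singleton]
      exact h2
    exact (card_le_card hsub).trans card_le_two
  · have : (univ.filter fun y : ZMod p => y ^ 2 = c) = ∅ := by
      rw [filter_eq_empty_iff]
      intro y _ hy
      exact h ⟨y, hy⟩
    rw [this]
    simp

theorem nz_le {p : ℕ} (hp : p.Prime) (a b : ZMod p) : nz a b ≤ 2 * p := by
  classical
  have : Fact p.Prime := ⟨hp⟩
  unfold nz
  rw [Nat.card_eq_fintype_card, Fintype.card_subtype]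
  have h1 : (univ.filter fun z : ZMod p × ZMod p => z.2 ^ 2 = z.1 ^ 3 + a * z.1 + b).card ≤
      2 * (univ : Finset (ZMod p)).card := by
    refine Finset.card_le_mul_card_image_of_maps_to (f := fun z : ZMod p × ZMod p => z.1)
      (fun z _ => mem_univ _) 2 ?_
    intro x _
    refine le_trans ?_ (s6_sq_card (x ^ 3 + a * x + b))
    refine Finset.card_le_card_of_injOn (fun z : ZMod p × ZMod p => z.2) ?_ ?_
    · intro z hz
      rw [mem_coe, mem_filter, mem_filter] at hz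
      rw [mem_coe, mem_filter]
      refine ⟨mem_univ _, ?_⟩
      have h2 : z.1 = x := hz.2
      rw [← h2]
      exact hz.1.2
    · intro z hz w hw hzw
      rw [mem_coe, mem_filter] at hz hw
      exact Prod.ext (hz.2.trans hw.2.symm) hzw
  refine h1.trans ?_
  rw [card_univ, ZMod.card]

theorem Gk_dvd {p X U k Y e : ℕ} (hp : p.Prime) (hpX : p ≤ X) {z : ZMod p × ZMod p} (h : Gk p U k z) (hU : 1 ≤ U)
    (h1 : 4 * U ≤ Y) (h2 : 3 * X ≤ Y * U ^ k) (h3 : 3 * X ≤ 2 ^ e) : nz z.1 z.2 + 1 ∣ primorial Y ^ e := by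
  obtain ⟨-, l, hl, hUl, hlU, m, hm⟩ := h
  have hn : nz z.1 z.2 + 1 ≤ 3 * X := by
    have h4 := nz_le hp z.1 z.2
    have h5 := hp.two_le
    omega
  have h6 : nz z.1 z.2 + 1 ∣ primorial Y ^ (Nat.log 2 (3 * X)) := by
    refine dvd_prim _ _ _ (Nat.succ_le_succ (Nat.zero_le _)) hn ?_
    intro q hq hqn
    rw [hm] at hqn
    rcases (hq.dvd_mul).1 hqn with h7 | h7
    · have h8 : q = l := (Nat.prime_dvd_prime_iff_eq hq hl).1 (hq.dvd_of_dvd_pow h7)
      rw [h8]
      exact hlU.trans h1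
    · have hm0 : 0 < m := by
        rcases Nat.eq_zero_or_pos m with h9 | h9
        · rw [h9, mul_zero] at hm
          exact absurd hm (Nat.succ_ne_zero _)
        · exact h9
      have h9 : q ≤ m := Nat.le_of_dvd hm0 h7
      have h10 : q * U ^ k ≤ Y * U ^ k := by
        calc q * U ^ k ≤ m * l ^ k := Nat.mul_le_mul h9 (Nat.pow_le_pow_left hUl.le k)
          _ = nz z.1 z.2 + 1 := by rw [hm, mul_comm]
          _ ≤ 3 * X := hn
          _ ≤ Y * U ^ k := h2
      exact Nat.le_of_mul_le_mul_right h10 (pow_pos (by omega) k)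
  refine h6.trans (pow_dvd_pow _ ?_)
  calc Nat.log 2 (3 * X) ≤ Nat.log 2 (2 ^ e) := Nat.log_mono_right h3
    _ = e := Nat.log_pow one_lt_two e

end MWS
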