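import Pool.Agent.Lib.MP_10e784_agBS.S6
import Pool.Agent.Lib.MP_10e784_agV.C4
import Pool.Agent.Lib.MP_10e784_agV.C6
import Pool.Agent.Lib.MP_10e784_agW.GA
import Pool.Agent.Lib.MP_10e784_agW.RC

/-!
# Block S, LEAF S7: few classes modulo `2`, few classes modulo `L`

PROOF of `tors_gen`.  The proof of `tors_card` (end of leaf `agV/C6`: the reduction homomorphism is injective on the torsion, by `ker_free`) without
its first step: `Nat.card torsion ≤ Nat.card (Pt (ZMod p) A B)`, and `Nat.card (Pt (ZMod p) A B) = na A B p + 1` (`RD_equiv` of `agW/RD`, `Finite.card_option`).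
PROOF of `few_cls`.  `cls_fg` for `Pt ℚ A B` (`mw`), `hF`, and `na A B p + 1 ≤ 2 p + 1 ≤ L` (`nz_le`; `na A B p = nz (A : ZMod p) (B : ZMod p)` by definition).
-/

namespace MWS

theorem tors_gen {p : ℕ} [Fact p.Prime] {A B : ℤ} (hp2 : p ≠ 2) (hd : ¬ (p : ℤ) ∣ dsc A B) :
    Nat.card (AddCommGroup.torsion (Pt ℚ A B)) ≤ na A B p + 1 := by
  have h1 : Nat.card (Pt (ZMod p) A B) = na A B p + 1 := by
    have : Finite {z : ZMod p × ZMod p // z.2 ^ 2 = z.1 ^ 3 + (A : ZMod p) * z.1 + (B : ZMod p)} :=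
      inferInstance
    rw [Nat.card_congr (RD_equiv hp2 hd), Finite.card_option]
    rfl
  have hfin : Finite (Pt (ZMod p) A B) := Nat.finite_of_card_ne_zero (by rw [h1]; omega)
  obtain ⟨ρ, hρ⟩ := exists_red (p := p) (α := A) (β := B) hp2 hd
  rw [← h1]
  refine Nat.card_le_card_of_injective (fun t : AddCommGroup.torsion (Pt ℚ A B) => ρ t) ?_
  have hinj : Function.Injective (ρ.comp (AddCommGroup.torsion (Pt ℚ A B)).subtype) := by
    rw [injective_iff_map_eq_zero]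
    rintro ⟨t, ht⟩ h0
    have h0' : ρ t = 0 := h0
    by_contra hne
    have ht0 : t ≠ 0 := fun h => hne (Subtype.ext h)
    have hfo : 0 < addOrderOf t := IsOfFinAddOrder.addOrderOf_pos ht
    have ho1 : addOrderOf t ≠ 1 := fun h => ht0 (AddMonoid.addOrderOf_eq_one_iff.1 h)
    obtain ⟨q, hq, hqd⟩ := Nat.exists_prime_and_dvd ho1
    obtain ⟨m, hm⟩ := hqd
    have hm0 : 0 < m := by
      rcases Nat.eq_zero_or_pos m with h | h
      · rw [h, mul_zero] at hm
        omega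
      · exact h
    obtain ⟨σ, hσ⟩ : ∃ σ : Pt ℚ A B, σ = m • t := ⟨_, rfl⟩
    have hσ0 : σ ≠ 0 := by
      rw [hσ]
      intro h
      have h3 := Nat.le_of_dvd hm0 (addOrderOf_dvd_of_nsmul_eq_zero h)
      have h4 := hq.two_le
      rw [hm] at h3
      nlinarith
    have hqσ : q • σ = 0 := by
      rw [hσ, ← mul_nsmul', ← hm]
      exact addOrderOf_nsmul_eq_zero t
    have hρσ : ρ σ = 0 := by rw [hσ, map_nsmul, h0', smul_zero]
    rcases σ with _ | ⟨x, y, h⟩
    · exact hσ0 rfl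
    · have hx : p ∣ x.den := by
        by_contra hc
        obtain ⟨h', e'⟩ := (hρ x y h).2 hc
        rw [hρσ] at e'
        exact WeierstrassCurve.Affine.Point.some_ne_zero h' e'.symm
      exact ker_free hp2 hd h hx q hq hqσ
  exact hinj

theorem few_cls {A B : ℤ} (hd : dsc A B ≠ 0) {t L p : ℕ} (hF : Few A B t) (hp : p.Prime) (hp11 : 11 ≤ p)
    (hpd : ¬ (p : ℤ) ∣ dsc A B) (hL : 2 * p + 1 ≤ L) :
    ∃ r : Fin (L ^ (t + 1)) → Pt ℚ A B, ∀ P : Pt ℚ A B, ∃ i, ∃ Q : Pt ℚ A B, P = r i + L • Q := by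
  have : Fact p.Prime := ⟨hp⟩
  have h1 : Module.Finite ℤ (Pt ℚ A B) := mw hd
  have h2 := tors_gen (p := p) (A := A) (B := B) (by omega) hpd
  have h3 : na A B p ≤ 2 * p := nz_le hp ((A : ℤ) : ZMod p) ((B : ℤ) : ZMod p)
  exact cls_fg (Pt ℚ A B) t hF L (by omega) (by omega)

end MWS
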