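import Pool.Agent.Lib.MP_10e784_agBS.Defs

/-!
# All bielliptic curves, block S: local conditions
-/

namespace MWS

open Finset

/-- the integral vector `c` satisfies the local conditions `R p z`, `z` the reduction of the point `P`, at all the
primes `p ≥ 11` of good reduction -/
def Adm {ι : Type} (R : (p : ℕ) → Option (ZMod p × ZMod p) → Set (ι → ZMod p)) {A B : ℤ} (c : ι → ℤ)
    (P : Pt ℚ A B) : Prop :=
  ∀ p : ℕ, p.Prime → 11 ≤ p → ¬ (p : ℤ) ∣ dsc A B → (fun i => ((c i : ℤ) : ZMod p)) ∈ R p (rd p P)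

/-- the density of each local condition is at most `1 - κ` -/
def Dens {ι : Type} [Fintype ι] (R : (p : ℕ) → Option (ZMod p × ZMod p) → Set (ι → ZMod p)) (κ : ℝ) : Prop :=
  ∀ p : ℕ, p.Prime → 11 ≤ p → ∀ z, (Nat.card (R p z) : ℝ) ≤ (1 - κ) * (p : ℝ) ^ Fintype.card ι

end MWS
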