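import Pool.Agent.Lib.MP_10e784_agV.Defs

/-!
# All bielliptic curves, block S: definitions and the interfaces of the blocks R and P
-/

namespace MWS

open Finset

/-- `E(ℚ)`, `E : y² = x³ + A x + B`, has at most `2 ^ t` classes modulo `2` -/
def Few (A B : ℤ) (t : ℕ) : Prop :=
  ∃ r : Fin (2 ^ t) → Pt ℚ A B, ∀ P : Pt ℚ A B, ∃ i, ∃ Q : Pt ℚ A B, P = r i + 2 • Q

/-- the interface of block R: the average of `2 ^ rank` over all curves -/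
def FactR : Prop := ∃ C : ℝ, ∀ H : ℕ, 1 ≤ H → ∀ t : ℕ,
  (Nat.card {z : ℤ × ℤ // |z.1| ≤ (H : ℤ) ^ 2 ∧ |z.2| ≤ (H : ℤ) ^ 3 ∧ dsc z.1 z.2 ≠ 0 ∧ ¬ Few z.1 z.2 t} : ℝ) * 2 ^ t ≤
    C * (H : ℝ) ^ 5 * (1 + Real.log H)

/-- the number of affine points of `y² = x³ + a x + b` over `ZMod p` -/
noncomputable def nz {p : ℕ} (a b : ZMod p) : ℕ :=
  Nat.card {z : ZMod p × ZMod p // z.2 ^ 2 = z.1 ^ 3 + a * z.1 + b}

/-- an elliptic curve modulo `p` such that `l ^ k` divides the number of its points for a prime `l` in `(U, 4 U]` -/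
def Gk (p U k : ℕ) (z : ZMod p × ZMod p) : Prop :=
  4 * z.1 ^ 3 + 27 * z.2 ^ 2 ≠ 0 ∧ ∃ l : ℕ, l.Prime ∧ U < l ∧ l ≤ 4 * U ∧ l ^ k ∣ nz z.1 z.2 + 1

/-- the interface of block P: many curves modulo `p` with a prime `l ~ U` dividing the number of points -/
def FactP : Prop := ∃ c : ℝ, 0 < c ∧ ∃ K : ℕ, ∀ U : ℕ, K ≤ U → ∀ p : ℕ, p.Prime → U ^ K ≤ p →
  c * (p : ℝ) ^ 2 / Real.log p ≤ (Nat.card {z // Gk p U 1 z} : ℝ) ∨
  c * (p : ℝ) ^ 2 / (U * Real.log p) ≤ (Nat.card {z // Gk p U 2 z} : ℝ)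

end MWS
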