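import Mathlib

/-!
# Block S, LEAF S1: sums of periodic functions over boxes, upper bound (Mathlib only)

PROOF.  Group the `c` of the box by their image `a` in `ι → ZMod q`: the sum is `∑_a G a #{c in the box, c = a mod q}` and
`#{..} = ∏_i #{t ∈ [-h_i, h_i] : t = a_i mod q}` (`Fintype.piFinset` of the filtered intervals); each factor is at most
`(2 h_i + 1) / q + 1 ≤ 4 h_i / q` because `q ≤ h_i` and `1 ≤ h_i` (e.g. `Int.Ico_filter_modEq_card`,
`Int.Ioc_filter_modEq_card`, or: the map `t ↦ (t - t₀) / q` is injective on these `t` with values in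
`[0, 2 h_i / q]`, `t₀` the smallest of them).  `G a ≥ 0`.
-/

namespace MWS

open Finset

private theorem S1_count (q : ℕ) [NeZero q] (h : ℕ) (hq : q ≤ h) (a : ZMod q) :
    (((Icc (-(h : ℤ)) h).filter fun t : ℤ => ((t : ℤ) : ZMod q) = a).card : ℝ) ≤ 4 * (h : ℝ) / q := by
  obtain ⟨v, rfl⟩ := ZMod.intCast_surjective a
  have hq0 : 0 < q := Nat.pos_of_ne_zero (NeZero.ne q)
  have hqz : (0 : ℤ) < (q : ℤ) := by exact_mod_cast hq0
  have hqQ : (0 : ℚ) < (q : ℚ) := by exact_mod_cast hq0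
  have hqR : (0 : ℝ) < (q : ℝ) := by exact_mod_cast hq0
  have e1 : (Icc (-(h : ℤ)) h).filter (fun t : ℤ => ((t : ℤ) : ZMod q) = ((v : ℤ) : ZMod q)) =
      (Ioc (-(h : ℤ) - 1) h).filter (fun t : ℤ => t ≡ v [ZMOD (q : ℤ)]) := by
    ext t
    rw [mem_filter, mem_filter, mem_Icc, mem_Ioc, ZMod.intCast_eq_intCast_iff]
    constructor
    · rintro ⟨⟨h1, h2⟩, h3⟩
      exact ⟨⟨by omega, h2⟩, h3⟩
    · rintro ⟨⟨h1, h2⟩, h3⟩
      exact ⟨⟨by omega, h2⟩, h3⟩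
  rw [e1]
  have e2 := Int.Ioc_filter_modEq_card (-(h : ℤ) - 1) (h : ℤ) hqz v
  have e3 : ((((Ioc (-(h : ℤ) - 1) h).filter (fun t : ℤ => t ≡ v [ZMOD (q : ℤ)])).card : ℤ) : ℚ) ≤
      4 * (h : ℚ) / q := by
    rw [e2]
    have f1 := Int.floor_le (((h : ℤ) - (v : ℤ) : ℚ) / ((q : ℤ) : ℚ))
    have f2 := Int.lt_floor_add_one ((((-(h : ℤ) - 1 : ℤ) : ℚ) - (v : ℚ)) / ((q : ℤ) : ℚ))
    have hhq : (q : ℚ) ≤ h := by exact_mod_cast hq
    have hh1 : (1 : ℚ) ≤ h := by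
      have : 1 ≤ h := le_trans hq0 hq
      exact_mod_cast this
    have f3 : (((h : ℤ) - (v : ℤ) : ℚ) / ((q : ℤ) : ℚ)) - ((((-(h : ℤ) - 1 : ℤ) : ℚ) - (v : ℚ)) / ((q : ℤ) : ℚ)) + 1 ≤
        4 * (h : ℚ) / q := by
      push_cast
      rw [← sub_div, div_add_one hqQ.ne', div_le_div_iff_of_pos_right hqQ]
      linarith
    rw [Int.cast_max]
    refine max_le ?_ ?_
    · rw [Int.cast_sub]
      push_cast at f1 f2 f3 ⊢
      linarith
    · rw [Int.cast_zero]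
      positivity
  have e4 : (((((Ioc (-(h : ℤ) - 1) h).filter (fun t : ℤ => t ≡ v [ZMOD (q : ℤ)])).card : ℤ) : ℚ) : ℝ) ≤
      ((4 * (h : ℚ) / q : ℚ) : ℝ) := Rat.cast_le.2 e3
  push_cast at e4
  exact e4

theorem box_sum {ι : Type} [Fintype ι] [DecidableEq ι] (q : ℕ) [NeZero q] (h : ι → ℕ) (hq : ∀ i, q ≤ h i)
    (G : (ι → ZMod q) → ℝ) (hG : ∀ a, 0 ≤ G a) :
    ∑ c ∈ Fintype.piFinset (fun i => Icc (-(h i : ℤ)) (h i)), G (fun i => ((c i : ℤ) : ZMod q)) ≤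
      (∏ i, (4 * (h i : ℝ) / q)) * ∑ a, G a := by
  rw [← Finset.sum_fiberwise (Fintype.piFinset (fun i => Icc (-(h i : ℤ)) (h i)))
    (fun c => (fun i => ((c i : ℤ) : ZMod q))) (fun c => G (fun i => ((c i : ℤ) : ZMod q))), Finset.mul_sum]
  refine Finset.sum_le_sum fun a _ => ?_
  have e1 : ∑ c ∈ (Fintype.piFinset (fun i => Icc (-(h i : ℤ)) (h i))).filter
      (fun c => (fun i => ((c i : ℤ) : ZMod q)) = a), G (fun i => ((c i : ℤ) : ZMod q)) =
      (((Fintype.piFinset (fun i => Icc (-(h i : ℤ)) (h i))).filter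
      (fun c => (fun i => ((c i : ℤ) : ZMod q)) = a)).card : ℝ) * G a := by
    rw [Finset.sum_congr rfl (g := fun _ => G a) fun c hc => by rw [(mem_filter.1 hc).2], Finset.sum_const,
      nsmul_eq_mul]
  rw [e1]
  refine mul_le_mul_of_nonneg_right ?_ (hG a)
  have e2 : (Fintype.piFinset (fun i => Icc (-(h i : ℤ)) (h i))).filter
      (fun c => (fun i => ((c i : ℤ) : ZMod q)) = a) =
      Fintype.piFinset (fun i => (Icc (-(h i : ℤ)) (h i)).filter fun t : ℤ => ((t : ℤ) : ZMod q) = a i) := by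
    ext c
    rw [mem_filter, Fintype.mem_piFinset, Fintype.mem_piFinset, funext_iff]
    constructor
    · rintro ⟨h1, h2⟩ i
      exact mem_filter.2 ⟨h1 i, h2 i⟩
    · intro h1
      exact ⟨fun i => (mem_filter.1 (h1 i)).1, fun i => (mem_filter.1 (h1 i)).2⟩
  rw [e2, Fintype.card_piFinset, Nat.cast_prod]
  exact Finset.prod_le_prod (fun i _ => Nat.cast_nonneg _) fun i _ => S1_count q (h i) (hq i) (a i)

end MWS
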