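import Mathlib

/-!
# Block S, LEAF S10: the choice of the parameters in terms of `X` (Mathlib only)

PROOF.  `η = 1 / (4 (K₁ + 1))`, `c₀ = η / 8`; `U = ⌊X ^ η⌋₊`, `t = ⌊X ^ (η / 2)⌋₊`, `e = Nat.clog 2 (3 X)` (so `3 X ≤ 2 ^ e`, `e ≤ 4 log X` for `X` large),
`Y₁ = 3 X / U + 1`, `Y₂ = 3 X / U ^ 2 + 1` (division in `ℕ`; `Nat.lt_succ_self`-type facts: `3 X ≤ (3 X / n + 1) n`).  For `X` large:
`U ≥ X ^ η / 2 → ∞`, `U ^ K₁ ≤ X ^ (1/4) ≤ X / K`, `4 U ≤ 3 X / U ^ 2` (`4 U ^ 3 ≤ 4 X ^ (3/4) ≤ 3 X`), `Y₁ ≤ 4 X / U`, `Y₂ ≤ 4 X / U²`.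
Loss: `(t + 1) e Y_k log 4 ≤ 2 X ^ (η/2) · 4 log X · (4 X / U ^ k) · 2`; gain: `g X / (U ^ (k - 1) (log X) ^ 2)`; loss / gain `≤ (64 / g) X ^ (η/2) (log X)³ / U ≤ (128 / g) (log X)³ X ^ (- η/2) → 0`, so loss `≤ gain / 2` for `X` large.
`(4 X + 4) ^ c₀ ≤ gain / 2` (gain `≥ g X ^ (1 - η) / (log X)²`).
Last line: `t log 2 ≥ (X ^ (η/2) - 1) / 2`, `log (4 X + 5) + (4 X + 4) ^ c₀ = o (X ^ (η/2))` as `c₀ < η / 2`.
-/

namespace MWS

open Filter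

private theorem S10_log (C δ : ℝ) (n : ℕ) (hδ : 0 < δ) :
    ∀ᶠ x : ℝ in atTop, C * Real.log x ^ n ≤ x ^ δ := by
  have h := (isLittleO_log_rpow_rpow_atTop (n : ℝ) hδ).bound (c := 1 / (|C| + 1)) (by positivity)
  filter_upwards [h, eventually_ge_atTop 1] with x hx h1
  have h0 : 0 ≤ Real.log x := Real.log_nonneg h1
  rw [Real.rpow_natCast, Real.norm_of_nonneg (by positivity),
    Real.norm_of_nonneg (by positivity)] at hx
  have h2 : C * Real.log x ^ n ≤ (|C| + 1) * Real.log x ^ n :=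
    mul_le_mul_of_nonneg_right (by linarith [le_abs_self C]) (by positivity)
  have h3 : (|C| + 1) * Real.log x ^ n ≤ (|C| + 1) * (1 / (|C| + 1) * x ^ δ) :=
    mul_le_mul_of_nonneg_left hx (by positivity)
  have h4 : (|C| + 1) * (1 / (|C| + 1) * x ^ δ) = x ^ δ := by
    field_simp
  linarith

private theorem S10_ge (C δ : ℝ) (hδ : 0 < δ) : ∀ᶠ x : ℝ in atTop, C ≤ x ^ δ :=
  (tendsto_rpow_atTop hδ).eventually_ge_atTop C

private theorem S10_clog {X : ℕ} (hX : 1 ≤ X) (hl : 4 ≤ Real.log X) :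
    (Nat.clog 2 (3 * X) : ℝ) ≤ 4 * Real.log X := by
  have hx : (0 : ℝ) < X := by exact_mod_cast hX
  have h1 : 2 ^ (Nat.clog 2 (3 * X)).pred < 3 * X := Nat.pow_pred_clog_lt_self (by norm_num) (by omega)
  have h2 : (2 : ℝ) ^ (Nat.clog 2 (3 * X)).pred < 3 * X := by exact_mod_cast h1
  have h3 := Real.log_lt_log (by positivity) h2
  rw [Real.log_pow, Real.log_mul (by norm_num) (by positivity)] at h3
  have h4 : (Nat.clog 2 (3 * X) : ℝ) ≤ (Nat.clog 2 (3 * X)).pred + 1 := by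
    exact_mod_cast Nat.le_succ_of_pred_le le_rfl
  have h5 := Real.log_two_gt_d9
  have h6 : Real.log 3 ≤ 2 := by
    have h7 := Real.log_le_sub_one_of_pos (show (0 : ℝ) < 3 by norm_num)
    linarith
  have h7 : (0 : ℝ) ≤ ((Nat.clog 2 (3 * X)).pred : ℝ) := Nat.cast_nonneg _
  nlinarith

private theorem S10_div (X n : ℕ) (hn : 0 < n) : 3 * X ≤ (3 * X / n + 1) * n := by
  have h1 := Nat.div_add_mod (3 * X) n
  have h2 := Nat.mod_lt (3 * X) hn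
  nlinarith

/-- The loss: `n = U ^ k`, `V = U ^ (k - 1)`. -/
private theorem S10_loss {x l a g U V t e Y w : ℝ} (hx : 0 < x) (hl : 0 < l) (ha : 0 < a) (hg : 0 < g)
    (hU : a * a / 2 ≤ U) (hV : 0 < V) (ht : t + 1 ≤ 2 * a) (_ : 0 ≤ t) (he0 : 0 ≤ e) (he : e ≤ 4 * l)
    (hY0 : 0 ≤ Y) (hY : Y * (U * V) ≤ 4 * x) (h1 : 256 / g * l ^ 3 ≤ a)
    (hw : w * V * l ^ 2 ≤ g * x / 2) :
    (t + 1) * e * Y * Real.log 4 + w ≤ g * x / (V * l ^ 2) := by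
  have h4 : Real.log 4 ≤ 2 := by
    have h5 : Real.log 4 = 2 * Real.log 2 := by
      rw [show (4 : ℝ) = 2 ^ 2 by norm_num, Real.log_pow]
      norm_num
    have h6 := Real.log_two_lt_d9
    linarith
  have h4' : 0 ≤ Real.log 4 := Real.log_nonneg (by norm_num)
  have hU0 : 0 < U := lt_of_lt_of_le (by positivity) hU
  have h2 : 256 * l ^ 3 ≤ g * a := by
    have h3 := mul_le_mul_of_nonneg_left h1 hg.le
    have h5 : g * (256 / g * l ^ 3) = 256 * l ^ 3 := by field_simp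
    linarith
  rw [le_div_iff₀ (by positivity)]
  have h5 : (t + 1) * e * Y * Real.log 4 ≤ (2 * a) * (4 * l) * Y * 2 := by
    gcongr
  have h6 : (t + 1) * e * Y * Real.log 4 * (V * l ^ 2) * U ≤ (g * x / 2) * U := by
    calc (t + 1) * e * Y * Real.log 4 * (V * l ^ 2) * U
        ≤ (2 * a) * (4 * l) * Y * 2 * (V * l ^ 2) * U := by gcongr
      _ = 16 * a * l ^ 3 * (Y * (U * V)) := by ring
      _ ≤ 16 * a * l ^ 3 * (4 * x) := by gcongr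
      _ = (256 * l ^ 3) * (a * x / 4) := by ring
      _ ≤ (g * a) * (a * x / 4) := by gcongr
      _ = (g * x / 2) * (a * a / 2) := by ring
      _ ≤ (g * x / 2) * U := by gcongr
  have h7 : (t + 1) * e * Y * Real.log 4 * (V * l ^ 2) ≤ g * x / 2 := le_of_mul_le_mul_right h6 hU0
  linarith

theorem par_X (K₁ : ℕ) : ∃ c₀ : ℝ, 0 < c₀ ∧ ∀ K g : ℝ, 1 ≤ K → 0 < g → ∀ᶠ X : ℕ in atTop, ∃ U t e Y₁ Y₂ : ℕ,
    1 ≤ U ∧ K₁ ≤ U ∧ (U : ℝ) ^ K₁ ≤ X / K ∧ 3 * X ≤ 2 ^ e ∧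
    4 * U ≤ Y₁ ∧ 3 * X ≤ Y₁ * U ^ 1 ∧ 4 * U ≤ Y₂ ∧ 3 * X ≤ Y₂ * U ^ 2 ∧
    ((t : ℝ) + 1) * e * Y₁ * Real.log 4 + (4 * (X : ℝ) + 4) ^ c₀ ≤ g * X / (Real.log X) ^ 2 ∧
    ((t : ℝ) + 1) * e * Y₂ * Real.log 4 + (4 * (X : ℝ) + 4) ^ c₀ ≤ g * X / (U * (Real.log X) ^ 2) ∧
    Real.log (4 * X + 5) + (4 * (X : ℝ) + 4) ^ c₀ ≤ t * Real.log 2 := by
  obtain ⟨s, hs⟩ : ∃ s : ℝ, s = 1 / (8 * ((K₁ : ℝ) + 1)) := ⟨_, rfl⟩
  have hK1 : (0 : ℝ) ≤ K₁ := Nat.cast_nonneg _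
  have hs0 : 0 < s := by
    rw [hs]
    positivity
  have hs1 : s * (8 * ((K₁ : ℝ) + 1)) = 1 := by
    rw [hs]
    field_simp
  have hs8 : s ≤ 1 / 8 := by nlinarith
  have hsK : 2 * s * K₁ ≤ 1 / 4 := by nlinarith
  refine ⟨s / 4, by positivity, fun K g hK hg => ?_⟩
  have hnat := tendsto_natCast_atTop_atTop (R := ℝ)
  filter_upwards [hnat.eventually (S10_ge (K₁ + 4) s hs0), hnat.eventually (S10_ge K (3 / 4) (by norm_num)),
    hnat.eventually (S10_ge 4 (1 / 4) (by norm_num)), hnat.eventually (S10_log (256 / g) s 3 hs0),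
    hnat.eventually (S10_log (2 / g) (1 / 4) 2 (by norm_num)), hnat.eventually (S10_log 20 s 1 hs0),
    hnat.eventually (S10_ge 10 (s / 2) (by positivity)), hnat.eventually (eventually_ge_atTop 100),
    hnat.eventually (Real.tendsto_log_atTop.eventually_ge_atTop 4)]
    with X A1 A2 A3 A4 A5 A6 A7 A8 A9
  obtain ⟨x, hx⟩ : ∃ x : ℝ, x = X := ⟨_, rfl⟩
  rw [← hx] at A1 A2 A3 A4 A5 A6 A7 A8
  have hx0 : 0 < x := by linarith
  have hx1 : 1 ≤ x := by linarith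
  have hX1 : 1 ≤ X := by
    have h1 : (1 : ℝ) ≤ X := by rw [← hx]; exact hx1
    exact_mod_cast h1
  obtain ⟨a, ha⟩ : ∃ a : ℝ, a = x ^ s := ⟨_, rfl⟩
  have haa : x ^ (2 * s) = a * a := by
    rw [ha, ← Real.rpow_add hx0]
    congr 1
    ring
  have ha4 : (K₁ : ℝ) + 4 ≤ a := by rw [ha]; exact A1
  have ha0 : 0 < a := by linarith
  have hUle : ((⌊a * a⌋₊ : ℕ) : ℝ) ≤ a * a := Nat.floor_le (by positivity)
  have hUlt : a * a - 1 < ((⌊a * a⌋₊ : ℕ) : ℝ) := Nat.sub_one_lt_floor _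
  obtain ⟨U, hU⟩ : ∃ U : ℕ, U = ⌊a * a⌋₊ := ⟨_, rfl⟩
  rw [← hU] at hUle hUlt
  have hU2 : a * a / 2 ≤ U := by nlinarith
  have hUK : (K₁ : ℝ) ≤ U := by nlinarith
  have hU1 : (1 : ℝ) ≤ U := by nlinarith
  have hU1' : 1 ≤ U := by exact_mod_cast hU1
  have htle : ((⌊a⌋₊ : ℕ) : ℝ) ≤ a := Nat.floor_le ha0.le
  have htlt : a - 1 < ((⌊a⌋₊ : ℕ) : ℝ) := Nat.sub_one_lt_floor _
  have hq : x ^ (1 / 4 : ℝ) * x ^ (3 / 4 : ℝ) = x := by
    rw [← Real.rpow_add hx0]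
    norm_num
  have hpw : ∀ n : ℕ, 2 * s * n ≤ 3 / 4 → (U : ℝ) ^ n ≤ x ^ (3 / 4 : ℝ) := by
    intro n hn
    calc (U : ℝ) ^ n ≤ (a * a) ^ n := by gcongr
      _ = x ^ (2 * s * n) := by rw [← haa, ← Real.rpow_natCast, ← Real.rpow_mul hx0.le]
      _ ≤ x ^ (3 / 4 : ℝ) := Real.rpow_le_rpow_of_exponent_le hx1 hn
  have hpK : (U : ℝ) ^ K₁ ≤ x ^ (1 / 4 : ℝ) := by
    calc (U : ℝ) ^ K₁ ≤ (a * a) ^ K₁ := by gcongr
      _ = x ^ (2 * s * K₁) := by rw [← haa, ← Real.rpow_natCast, ← Real.rpow_mul hx0.le]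
      _ ≤ x ^ (1 / 4 : ℝ) := Real.rpow_le_rpow_of_exponent_le hx1 hsK
  have hU3 : 4 * (U : ℝ) ^ 3 ≤ x := by
    have h1 := hpw 3 (by push_cast; linarith)
    have h2 : 0 ≤ x ^ (3 / 4 : ℝ) := by positivity
    nlinarith
  have hU12 : (U : ℝ) ^ 1 ≤ U ^ 3 := pow_le_pow_right₀ hU1 (by norm_num)
  have hU22 : (U : ℝ) ^ 2 ≤ U ^ 3 := pow_le_pow_right₀ hU1 (by norm_num)
  have hw : (4 * x + 4) ^ (s / 4) ≤ x ^ (s / 2) := by
    have h1 : 4 * x + 4 ≤ x ^ (2 : ℝ) := by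
      rw [Real.rpow_two]
      nlinarith
    calc (4 * x + 4) ^ (s / 4) ≤ (x ^ (2 : ℝ)) ^ (s / 4) :=
          Real.rpow_le_rpow (by positivity) h1 (by positivity)
      _ = x ^ (s / 2) := by
          rw [← Real.rpow_mul hx0.le]
          congr 1
          ring
  have hl : 0 < Real.log x := by
    rw [hx]
    linarith
  have he : (Nat.clog 2 (3 * X) : ℝ) ≤ 4 * Real.log x := by
    rw [hx]
    exact S10_clog hX1 A9
  have hw2 : (4 * x + 4) ^ (s / 4) * U * Real.log x ^ 2 ≤ g * x / 2 := by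
    have h1 : (4 * x + 4) ^ (s / 4) ≤ x ^ (1 / 4 : ℝ) :=
      hw.trans (Real.rpow_le_rpow_of_exponent_le hx1 (by linarith))
    have h2 : (U : ℝ) ≤ x ^ (1 / 4 : ℝ) := by
      refine hUle.trans ?_
      rw [← haa]
      exact Real.rpow_le_rpow_of_exponent_le hx1 (by linarith)
    have h3 : Real.log x ^ 2 ≤ g / 2 * x ^ (1 / 4 : ℝ) := by
      have h4 := mul_le_mul_of_nonneg_left A5 (show 0 ≤ g / 2 by positivity)
      have h5 : g / 2 * (2 / g * Real.log x ^ 2) = Real.log x ^ 2 := by field_simp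
      linarith
    have h4 : x ^ (1 / 4 : ℝ) * x ^ (1 / 4 : ℝ) * x ^ (1 / 4 : ℝ) = x ^ (3 / 4 : ℝ) := by
      rw [← Real.rpow_add hx0, ← Real.rpow_add hx0]
      norm_num
    have h5 : x ^ (3 / 4 : ℝ) ≤ x := by
      have h6 : 0 ≤ x ^ (3 / 4 : ℝ) := by positivity
      nlinarith
    calc (4 * x + 4) ^ (s / 4) * U * Real.log x ^ 2
        ≤ x ^ (1 / 4 : ℝ) * x ^ (1 / 4 : ℝ) * (g / 2 * x ^ (1 / 4 : ℝ)) := by gcongr
      _ = g / 2 * (x ^ (1 / 4 : ℝ) * x ^ (1 / 4 : ℝ) * x ^ (1 / 4 : ℝ)) := by ring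
      _ = g / 2 * x ^ (3 / 4 : ℝ) := by rw [h4]
      _ ≤ g / 2 * x := by gcongr
      _ = g * x / 2 := by ring
  have hw1 : (4 * x + 4) ^ (s / 4) * 1 * Real.log x ^ 2 ≤ g * x / 2 := by
    refine le_trans ?_ hw2
    gcongr
  have hYle : ∀ n : ℕ, 0 < n → (n : ℝ) ≤ x → ((3 * X / n + 1 : ℕ) : ℝ) * n ≤ 4 * x := by
    intro n hn hnx
    have h1 : ((3 * X / n * n : ℕ) : ℝ) ≤ 3 * x := by
      rw [hx]
      exact_mod_cast Nat.div_mul_le_self (3 * X) n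
    push_cast at h1 ⊢
    linarith
  refine ⟨U, ⌊a⌋₊, Nat.clog 2 (3 * X), 3 * X / U ^ 1 + 1, 3 * X / U ^ 2 + 1, hU1', by exact_mod_cast hUK, ?_,
    Nat.le_pow_clog (by norm_num) _, ?_, S10_div X _ (by positivity), ?_, S10_div X _ (by positivity),
    ?_, ?_, ?_⟩
  · rw [← hx, le_div_iff₀ (by linarith)]
    calc (U : ℝ) ^ K₁ * K ≤ x ^ (1 / 4 : ℝ) * x ^ (3 / 4 : ℝ) := by gcongr
      _ = x := hq
  · refine le_trans ?_ (Nat.le_succ _)
    rw [Nat.le_div_iff_mul_le (by positivity)]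
    have h1 : (4 * (U : ℝ)) * U ^ 1 ≤ 3 * X := by
      rw [← hx]
      nlinarith
    exact_mod_cast h1
  · refine le_trans ?_ (Nat.le_succ _)
    rw [Nat.le_div_iff_mul_le (by positivity)]
    have h1 : (4 * (U : ℝ)) * U ^ 2 ≤ 3 * X := by
      rw [← hx]
      nlinarith
    exact_mod_cast h1
  · have h1 := S10_loss (x := x) (l := Real.log x) (a := a) (g := g) (U := U) (V := 1) (t := (⌊a⌋₊ : ℕ))
      (e := (Nat.clog 2 (3 * X) : ℕ)) (Y := ((3 * X / U ^ 1 + 1 : ℕ) : ℝ)) (w := (4 * x + 4) ^ (s / 4))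
      hx0 hl ha0 hg hU2 one_pos (by linarith) (by positivity) (by positivity) he (by positivity)
      (by
        have h2 := hYle (U ^ 1) (by positivity) (by push_cast; linarith)
        have h3 : (U : ℝ) ^ 1 = U := pow_one _
        rw [Nat.cast_pow, h3] at h2
        rwa [mul_one])
      (by rw [ha]; exact A4) hw1
    rw [one_mul, hx] at h1
    exact h1
  · have h1 := S10_loss (x := x) (l := Real.log x) (a := a) (g := g) (U := U) (V := U) (t := (⌊a⌋₊ : ℕ))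
      (e := (Nat.clog 2 (3 * X) : ℕ)) (Y := ((3 * X / U ^ 2 + 1 : ℕ) : ℝ)) (w := (4 * x + 4) ^ (s / 4))
      hx0 hl ha0 hg hU2 (by linarith) (by linarith) (by positivity) (by positivity) he (by positivity)
      (by
        have h2 := hYle (U ^ 2) (by positivity) (by push_cast; linarith)
        have h3 : (U : ℝ) ^ 2 = U * U := pow_two _
        rw [Nat.cast_pow, h3] at h2
        exact h2)
      (by rw [ha]; exact A4) hw2
    rw [hx] at h1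
    exact h1
  · rw [← hx]
    have h1 : Real.log (4 * x + 5) ≤ 2 * Real.log x := by
      rw [← Real.log_rpow hx0, Real.rpow_two]
      refine Real.log_le_log (by positivity) ?_
      nlinarith
    have h2 : x ^ (s / 2) * x ^ (s / 2) = a := by
      rw [ha, ← Real.rpow_add hx0]
      congr 1
      ring
    have h3 := Real.log_two_gt_d9
    rw [pow_one, ← ha] at A6
    have h5 : 10 * x ^ (s / 2) ≤ a := by
      rw [← h2]
      gcongr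
    nlinarith

end MWS
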