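import Pool.Agent.Lib.MP_10e784_agBS.S9
import Pool.Agent.Lib.MP_10e784_agBS.S11
import Pool.Agent.Lib.MP_10e784_agW.SD

/-!
# Block S, S12: the sieve on average over all elliptic curves (assembly, helper97)
-/

namespace MWS

open Finset

/-- one choice of the parameters -/
private theorem S12_step {ι : Type} [Fintype ι] [DecidableEq ι] {κ : ℝ} (h0 : 0 ≤ κ) (h1 : κ ≤ 1)
    {R : (p : ℕ) → Option (ZMod p × ZMod p) → Set (ι → ZMod p)} (hR : Dens R κ) {C c₀ γ₀ : ℝ} {t H : ℕ} (hH : 1 ≤ H)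
    (hbad : (Nat.card {z : ℤ × ℤ // |z.1| ≤ (H : ℤ) ^ 2 ∧ |z.2| ≤ (H : ℤ) ^ 3 ∧ dsc z.1 z.2 ≠ 0 ∧
      ¬ Few z.1 z.2 t} : ℝ) * 2 ^ t ≤ C * (H : ℝ) ^ 5 * (1 + Real.log H))
    (S : Finset ℕ) {X U k Y e : ℕ} (hS : ∀ p ∈ S, p.Prime ∧ 11 ≤ p ∧ p ≤ X) (hU : 1 ≤ U)
    (hY : 4 * U ≤ Y) (hX : 3 * X ≤ Y * U ^ k) (he : 3 * X ≤ 2 ^ e) (hq : 4 ^ X ≤ H)
    (hγ : ∀ p ∈ S, γ₀ * (p : ℝ) ^ 2 ≤ (Nat.card {z // Gk p U k z} : ℝ))
    (hl : ((t : ℝ) + 1) * e * Y * Real.log 4 + (Real.log H) ^ c₀ ≤ κ * (S.card * γ₀))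
    (ht : Real.log (1 + Real.log H) + (Real.log H) ^ c₀ ≤ t * Real.log 2) :
    (Nat.card {z : (ℤ × ℤ) × (ι → ℤ) // dsc z.1.1 z.1.2 ≠ 0 ∧ |z.1.1| ≤ (H : ℤ) ^ 2 ∧ |z.1.2| ≤ (H : ℤ) ^ 3 ∧
      (∀ i, |z.2 i| ≤ (H : ℤ)) ∧ ∃ P : Pt ℚ z.1.1 z.1.2, Adm R z.2 P} : ℝ) ≤
      4 ^ Fintype.card ι * (16 + max C 0) * (H : ℝ) ^ (Fintype.card ι + 5) * Real.exp (-(Real.log H) ^ c₀) := by
  have hHr : (1 : ℝ) ≤ H := by exact_mod_cast hH
  have hlog : 0 ≤ Real.log H := Real.log_nonneg hHr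
  have hq' : ∏ p ∈ S, p ≤ H := by
    refine le_trans ?_ ((primorial_le_four_pow X).trans hq)
    unfold primorial
    refine prod_le_prod_of_subset_of_one_le' (fun p hp => ?_) (fun p hp _ => ?_)
    · obtain ⟨a1, a2, a3⟩ := hS p hp
      exact mem_filter.2 ⟨mem_range.2 (by omega), a1⟩
    · exact (mem_filter.1 hp).2.one_le
  have h2 := total h0 h1 hR hbad S hS hU hY hX he hq' (fun _ => γ₀) hγ
  refine h2.trans ?_
  have e1 : ((primorial Y : ℝ) ^ e) ^ (t + 1) ≤ Real.exp (((t : ℝ) + 1) * e * Y * Real.log 4) := by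
    have a1 : (primorial Y : ℝ) ≤ 4 ^ Y := by exact_mod_cast primorial_le_four_pow Y
    have a2 : Real.exp (((t : ℝ) + 1) * e * Y * Real.log 4) = (((4 : ℝ) ^ Y) ^ e) ^ (t + 1) := by
      have a3 : Real.log ((((4 : ℝ) ^ Y) ^ e) ^ (t + 1)) = ((t : ℝ) + 1) * e * Y * Real.log 4 := by
        rw [Real.log_pow, Real.log_pow, Real.log_pow]
        push_cast
        ring
      rw [← a3, Real.exp_log (by positivity)]
    rw [a2]
    exact pow_le_pow_left₀ (by positivity) (pow_le_pow_left₀ (by positivity) a1 _) _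
  have e2 : κ * ∑ p ∈ S, (fun _ => γ₀) p = κ * (S.card * γ₀) := by
    rw [sum_const, nsmul_eq_mul]
  have e3 : ((primorial Y : ℝ) ^ e) ^ (t + 1) * (16 * (H : ℝ) ^ 5 * Real.exp (-(κ * ∑ p ∈ S, (fun _ => γ₀) p))) ≤
      16 * (H : ℝ) ^ 5 * Real.exp (-(Real.log H) ^ c₀) := by
    rw [e2]
    calc ((primorial Y : ℝ) ^ e) ^ (t + 1) * (16 * (H : ℝ) ^ 5 * Real.exp (-(κ * (S.card * γ₀)))) ≤
          Real.exp (((t : ℝ) + 1) * e * Y * Real.log 4) *
            (16 * (H : ℝ) ^ 5 * Real.exp (-(κ * (S.card * γ₀)))) :=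
          mul_le_mul_of_nonneg_right e1 (by positivity)
      _ = 16 * (H : ℝ) ^ 5 * Real.exp (((t : ℝ) + 1) * e * Y * Real.log 4 - κ * (S.card * γ₀)) := by
          rw [sub_eq_add_neg, Real.exp_add]
          ring
      _ ≤ 16 * (H : ℝ) ^ 5 * Real.exp (-(Real.log H) ^ c₀) := by
          refine mul_le_mul_of_nonneg_left (Real.exp_le_exp.2 ?_) (by positivity)
          linarith
  have e4 : (1 + Real.log H) / 2 ^ t ≤ Real.exp (-(Real.log H) ^ c₀) := by
    rw [div_le_iff₀ (by positivity)]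
    have a1 : (2 : ℝ) ^ t = Real.exp (t * Real.log 2) := by
      rw [← Real.log_pow, Real.exp_log (by positivity)]
    calc 1 + Real.log H = Real.exp (Real.log (1 + Real.log H)) := (Real.exp_log (by linarith)).symm
      _ ≤ Real.exp (-(Real.log H) ^ c₀ + t * Real.log 2) := Real.exp_le_exp.2 (by linarith)
      _ = _ := by rw [Real.exp_add, a1]
  have e5 : C * (H : ℝ) ^ 5 * (1 + Real.log H) / 2 ^ t ≤ max C 0 * (H : ℝ) ^ 5 * Real.exp (-(Real.log H) ^ c₀) := by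
    calc C * (H : ℝ) ^ 5 * (1 + Real.log H) / 2 ^ t = C * ((H : ℝ) ^ 5 * ((1 + Real.log H) / 2 ^ t)) := by ring
      _ ≤ max C 0 * ((H : ℝ) ^ 5 * ((1 + Real.log H) / 2 ^ t)) :=
          mul_le_mul_of_nonneg_right (le_max_left _ _) (by positivity)
      _ ≤ max C 0 * ((H : ℝ) ^ 5 * Real.exp (-(Real.log H) ^ c₀)) := by
          refine mul_le_mul_of_nonneg_left ?_ (le_max_right _ _)
          exact mul_le_mul_of_nonneg_left e4 (by positivity)
      _ = _ := by ring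
  calc (4 * (H : ℝ)) ^ Fintype.card ι * (((primorial Y : ℝ) ^ e) ^ (t + 1) *
        (16 * (H : ℝ) ^ 5 * Real.exp (-(κ * ∑ p ∈ S, (fun _ => γ₀) p))) + C * (H : ℝ) ^ 5 * (1 + Real.log H) / 2 ^ t) ≤
        (4 * (H : ℝ)) ^ Fintype.card ι * (16 * (H : ℝ) ^ 5 * Real.exp (-(Real.log H) ^ c₀) +
          max C 0 * (H : ℝ) ^ 5 * Real.exp (-(Real.log H) ^ c₀)) :=
        mul_le_mul_of_nonneg_left (add_le_add e3 e5) (by positivity)
    _ = _ := by
        rw [mul_pow, pow_add]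
        ring

theorem core (hFR : FactR) (hFP : FactP) : ∃ c₀ : ℝ, 0 < c₀ ∧ ∀ (N : ℕ) (κ : ℝ), 0 < κ → κ ≤ 1 → ∃ C : ℝ, ∀ H : ℕ,
    1 ≤ H → ∀ (ι : Type) [Fintype ι] [DecidableEq ι], Fintype.card ι = N →
    ∀ R : (p : ℕ) → Option (ZMod p × ZMod p) → Set (ι → ZMod p), Dens R κ →
    (Nat.card {z : (ℤ × ℤ) × (ι → ℤ) // dsc z.1.1 z.1.2 ≠ 0 ∧ |z.1.1| ≤ (H : ℤ) ^ 2 ∧ |z.1.2| ≤ (H : ℤ) ^ 3 ∧
      (∀ i, |z.2 i| ≤ (H : ℤ)) ∧ ∃ P : Pt ℚ z.1.1 z.1.2, Adm R z.2 P} : ℝ) ≤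
      C * (H : ℝ) ^ (N + 5) * Real.exp (-(Real.log H) ^ c₀) := by
  classical
  obtain ⟨CR, hRR⟩ := hFR
  obtain ⟨c, hc, K₁, hP⟩ := hFP
  obtain ⟨A, hA1, hA2, hsm⟩ := smooth
  have hD : ¬ IsSquare (-1 : ℤ) := by
    rintro ⟨r, hr⟩
    nlinarith [mul_self_nonneg r]
  obtain ⟨K, hK, x0, hx0, hSS⟩ := hsm (-1) hD
  obtain ⟨c₀, hc₀, hpar⟩ := par_H K₁
  refine ⟨c₀, hc₀, fun N κ hκ hκ1 => ?_⟩
  have hK0 : 0 < K := by linarith
  have hg : 0 < κ * c / (2 * K) := by positivity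
  obtain ⟨H₀, hH₀⟩ := hpar K (κ * c / (2 * K)) hK hg x0
  set C1 : ℝ := 4 ^ N * (16 + max CR 0) with hC1
  set C2 : ℝ := 4 ^ N * (16 + max CR 0 * (1 + Real.log H₀)) * Real.exp ((Real.log H₀) ^ c₀) with hC2
  refine ⟨max C1 C2, fun H hH ι _ _ hι R hR => ?_⟩
  subst hι
  have hHr : (1 : ℝ) ≤ H := by exact_mod_cast hH
  have hlogH : 0 ≤ Real.log H := Real.log_nonneg hHr
  have hE : 0 < Real.exp (-(Real.log H) ^ c₀) := Real.exp_pos _
  rcases lt_or_ge H H₀ with hlt | hge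
  · -- small `H`
    have h2 := total hκ.le hκ1 hR (hRR H hH 0) ∅ (X := 0) (U := 1) (k := 0) (Y := 4) (e := 0)
      (fun p hp => absurd hp (notMem_empty p)) le_rfl (by norm_num) (by norm_num) (by norm_num)
      (by rw [prod_empty]; exact hH) (fun _ => 0) (fun p hp => absurd hp (notMem_empty p))
    refine h2.trans ?_
    have hle : (H : ℝ) ≤ H₀ := by exact_mod_cast hlt.le
    have hl : Real.log H ≤ Real.log H₀ := Real.log_le_log (by linarith) hle
    have hl0 : 0 ≤ Real.log H₀ := hlogH.trans hl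
    have e1 : CR * (H : ℝ) ^ 5 * (1 + Real.log H) / 2 ^ 0 ≤ max CR 0 * (1 + Real.log H₀) * (H : ℝ) ^ 5 := by
      rw [pow_zero, div_one]
      calc CR * (H : ℝ) ^ 5 * (1 + Real.log H) = CR * ((H : ℝ) ^ 5 * (1 + Real.log H)) := by ring
        _ ≤ max CR 0 * ((H : ℝ) ^ 5 * (1 + Real.log H)) :=
            mul_le_mul_of_nonneg_right (le_max_left _ _) (by positivity)
        _ ≤ max CR 0 * ((H : ℝ) ^ 5 * (1 + Real.log H₀)) := by
            refine mul_le_mul_of_nonneg_left ?_ (le_max_right _ _)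
            exact mul_le_mul_of_nonneg_left (by linarith) (by positivity)
        _ = _ := by ring
    have e2 : (4 * (H : ℝ)) ^ Fintype.card ι * (((primorial 4 : ℝ) ^ 0) ^ (0 + 1) *
        (16 * (H : ℝ) ^ 5 * Real.exp (-(κ * ∑ p ∈ (∅ : Finset ℕ), (fun _ => (0 : ℝ)) p))) +
          CR * (H : ℝ) ^ 5 * (1 + Real.log H) / 2 ^ 0) ≤
        (4 ^ Fintype.card ι * (16 + max CR 0 * (1 + Real.log H₀))) * (H : ℝ) ^ (Fintype.card ι + 5) := by
      rw [sum_empty, mul_zero, neg_zero, Real.exp_zero, mul_one, pow_zero, one_pow, one_mul]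
      calc (4 * (H : ℝ)) ^ Fintype.card ι * (16 * (H : ℝ) ^ 5 + CR * (H : ℝ) ^ 5 * (1 + Real.log H) / 2 ^ 0) ≤
            (4 * (H : ℝ)) ^ Fintype.card ι * (16 * (H : ℝ) ^ 5 + max CR 0 * (1 + Real.log H₀) * (H : ℝ) ^ 5) :=
            mul_le_mul_of_nonneg_left (by linarith) (by positivity)
        _ = _ := by
            rw [mul_pow, pow_add]
            ring
    refine e2.trans ?_
    have e3 : 1 ≤ Real.exp ((Real.log H₀) ^ c₀) * Real.exp (-(Real.log H) ^ c₀) := by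
      rw [← Real.exp_add]
      refine Real.one_le_exp ?_
      have := Real.rpow_le_rpow hlogH hl hc₀.le
      linarith
    have e4 : 0 ≤ 4 ^ Fintype.card ι * (16 + max CR 0 * (1 + Real.log H₀)) * (H : ℝ) ^ (Fintype.card ι + 5) := by
      have := le_max_right CR 0
      positivity
    calc (4 ^ Fintype.card ι * (16 + max CR 0 * (1 + Real.log H₀))) * (H : ℝ) ^ (Fintype.card ι + 5) ≤
          (4 ^ Fintype.card ι * (16 + max CR 0 * (1 + Real.log H₀))) * (H : ℝ) ^ (Fintype.card ι + 5) *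
            (Real.exp ((Real.log H₀) ^ c₀) * Real.exp (-(Real.log H) ^ c₀)) := le_mul_of_one_le_right e4 e3
      _ = C2 * (H : ℝ) ^ (Fintype.card ι + 5) * Real.exp (-(Real.log H) ^ c₀) := by
          rw [hC2]
          ring
      _ ≤ max C1 C2 * (H : ℝ) ^ (Fintype.card ι + 5) * Real.exp (-(Real.log H) ^ c₀) := by
          refine mul_le_mul_of_nonneg_right ?_ hE.le
          exact mul_le_mul_of_nonneg_right (le_max_right _ _) (by positivity)
  · obtain ⟨X, U, t, e, Y₁, Y₂, hxX, hq, h11, hU1, hUK, hUX, he, hY1, hX1, hY2, hX2, hl1, hl2, ht⟩ := hH₀ H hge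
    have hX2' : (2 : ℝ) ≤ X := hx0.trans hxX
    have hlX : 0 < Real.log X := Real.log_pos (by linarith)
    set S₀ := SS (-1) A K (X : ℝ) with hS₀
    have hcard := hSS (X : ℝ) hxX
    rw [← hS₀] at hcard
    have hmem : ∀ p ∈ S₀, p.Prime ∧ 11 ≤ p ∧ p ≤ X ∧ U ^ K₁ ≤ p := by
      intro p hp
      rw [hS₀] at hp
      unfold SS at hp
      rw [mem_filter, mem_Ioc] at hp
      obtain ⟨⟨a1, a2⟩, a3, -⟩ := hp
      have a4 : (X : ℝ) / K < p := (Nat.floor_lt (by positivity)).1 a1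
      rw [Nat.floor_natCast] at a2
      refine ⟨a3, ?_, a2, ?_⟩
      · have : (11 : ℝ) < p := by linarith
        have h3 : (11 : ℕ) < p := by exact_mod_cast this
        omega
      · have : ((U ^ K₁ : ℕ) : ℝ) < p := by
          push_cast
          linarith
        exact (by exact_mod_cast this : U ^ K₁ < p).le
    have hlp : ∀ p ∈ S₀, 0 < Real.log p ∧ Real.log p ≤ Real.log X := by
      intro p hp
      obtain ⟨a1, a2, a3, -⟩ := hmem p hp
      have b1 : (11 : ℝ) ≤ p := by exact_mod_cast a2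
      have b2 : (p : ℝ) ≤ X := by exact_mod_cast a3
      exact ⟨Real.log_pos (by linarith), Real.log_le_log (by linarith) b2⟩
    set S₁ := S₀.filter fun p : ℕ => c * (p : ℝ) ^ 2 / Real.log p ≤ (Nat.card {z // Gk p U 1 z} : ℝ) with hS₁
    set S₂ := S₀.filter fun p : ℕ => ¬ (c * (p : ℝ) ^ 2 / Real.log p ≤ (Nat.card {z // Gk p U 1 z} : ℝ)) with hS₂
    have hsum : S₁.card + S₂.card = S₀.card := card_filter_add_card_filter_not _
    have hsum' : (S₁.card : ℝ) + S₂.card = S₀.card := by exact_mod_cast hsum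
    have hUr : (1 : ℝ) ≤ U := by exact_mod_cast hU1
    have hfin : 4 ^ Fintype.card ι * (16 + max CR 0) * (H : ℝ) ^ (Fintype.card ι + 5) * Real.exp (-(Real.log H) ^ c₀) ≤
        max C1 C2 * (H : ℝ) ^ (Fintype.card ι + 5) * Real.exp (-(Real.log H) ^ c₀) := by
      refine mul_le_mul_of_nonneg_right ?_ hE.le
      exact mul_le_mul_of_nonneg_right (le_max_left _ _) (by positivity)
    refine le_trans ?_ hfin
    rcases le_or_gt (X / (2 * (K * Real.log X))) (S₁.card : ℝ) with hb | hb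
    · refine S12_step hκ.le hκ1 hR hH (hRR H hH t) S₁ (X := X) (U := U) (k := 1) (Y := Y₁) (e := e)
        (γ₀ := c / Real.log X) ?_ hU1 hY1 hX1 he hq ?_ ?_ ht
      · intro p hp
        obtain ⟨a1, a2, a3, -⟩ := hmem p (mem_filter.1 hp).1
        exact ⟨a1, a2, a3⟩
      · intro p hp
        have a1 := (mem_filter.1 hp).2
        obtain ⟨b1, b2⟩ := hlp p (mem_filter.1 hp).1
        refine le_trans ?_ a1
        rw [div_mul_eq_mul_div]
        exact div_le_div_of_nonneg_left (by positivity) b1 b2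
      · refine hl1.trans ?_
        have e1 : κ * c / (2 * K) * X / (Real.log X) ^ 2 = κ * ((X / (2 * (K * Real.log X))) * (c / Real.log X)) := by
          field_simp
        rw [e1]
        exact mul_le_mul_of_nonneg_left (mul_le_mul_of_nonneg_right hb (by positivity)) hκ.le
    · have hb2 : X / (2 * (K * Real.log X)) ≤ (S₂.card : ℝ) := by
        have e1 : (X : ℝ) / (K * Real.log X) = X / (2 * (K * Real.log X)) + X / (2 * (K * Real.log X)) := by
          field_simp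
          ring
        rw [e1] at hcard
        linarith
      refine S12_step hκ.le hκ1 hR hH (hRR H hH t) S₂ (X := X) (U := U) (k := 2) (Y := Y₂) (e := e)
        (γ₀ := c / (U * Real.log X)) ?_ hU1 hY2 hX2 he hq ?_ ?_ ht
      · intro p hp
        obtain ⟨a1, a2, a3, -⟩ := hmem p (mem_filter.1 hp).1
        exact ⟨a1, a2, a3⟩
      · intro p hp
        obtain ⟨b1, b2⟩ := hlp p (mem_filter.1 hp).1
        obtain ⟨d1, -, -, d2⟩ := hmem p (mem_filter.1 hp).1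
        have a1 := (hP U hUK p d1 d2).resolve_left (mem_filter.1 hp).2
        refine le_trans ?_ a1
        rw [div_mul_eq_mul_div]
        exact div_le_div_of_nonneg_left (by positivity) (by positivity) (by gcongr)
      · refine hl2.trans ?_
        have e1 : κ * c / (2 * K) * X / (U * (Real.log X) ^ 2) =
            κ * ((X / (2 * (K * Real.log X))) * (c / (U * Real.log X))) := by
          field_simp
        rw [e1]
        exact mul_le_mul_of_nonneg_left (mul_le_mul_of_nonneg_right hb2 (by positivity)) hκ.le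

end MWS
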