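import Pool.Agent.Lib.MP_10e784_agV.Res
import Pool.Agent.Lib.MP_10e784_agBS.Adm

/-!
# Block S, LEAF S13: the local conditions for double covers and for curves of bidegree `(2 d, n)`

PROOF of `adm_sq`.  `Res_ov` (`agV/Res`: the sum over `Bs d` is `Ov c P` for the corresponding `c : Cf d`), `loc` (`agW/LA`: `Ov c P → lc c p (rd p P)` for every prime), and `lc c p z → IsSquare (∑ k, (a k : ZMod p) * bv z k)`
(the private `C9_sum` of `agV/C9`: copy it as a private lemma).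
PROOF of `adm_form`: `locB` (`agV/VB2`).
PROOF of `dens_R1`, `dens_R2`: `dens_sq` (`agV/VD1`, `p ≠ 2`), `dens_form` (`agV/VD3`, `11 ≤ p`); `card (Bs d) = 2 d` for `d ≥ 1` (`Fintype.card_sum`), `card (Fin (n + 1) × Bs d) = (n + 1) (2 d)`.
-/

namespace MWS

open Finset

/-- the local condition for double covers -/
def R1 (d : ℕ) (p : ℕ) (z : Option (ZMod p × ZMod p)) : Set (Bs d → ZMod p) := {c | IsSquare (∑ k, c k * bv z k)}

/-- the local condition for the curves of bidegree `(2 d, n)` -/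
def R2 (n d : ℕ) (p : ℕ) (z : Option (ZMod p × ZMod p)) : Set (Fin (n + 1) × Bs d → ZMod p) :=
  {c | ∃ a b : ZMod p, (a ≠ 0 ∨ b ≠ 0) ∧ FB c z a b = 0}

private theorem S13_card {d : ℕ} (hd : 1 ≤ d) : Fintype.card (Bs d) = 2 * d := by
  show Fintype.card (Fin (d + 1) ⊕ Fin (d - 1)) = 2 * d
  rw [Fintype.card_sum, Fintype.card_fin, Fintype.card_fin]
  omega

private theorem S13_sum {p d : ℕ} (c : Cf d) (z : Option (ZMod p × ZMod p)) (h : lc c p z) :
    IsSquare (∑ k : Bs d, ((Sum.elim c.1 c.2 k : ℤ) : ZMod p) * bv z k) := by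
  rw [Fintype.sum_sum_type]
  cases z with
  | none =>
    have h' : IsSquare ((c.1 (Fin.last d) : ℤ) : ZMod p) := h
    have e1 : ∑ i : Fin (d + 1), ((Sum.elim c.1 c.2 (Sum.inl i : Bs d) : ℤ) : ZMod p) *
        bv (none : Option (ZMod p × ZMod p)) (Sum.inl i : Bs d) = ((c.1 (Fin.last d) : ℤ) : ZMod p) := by
      rw [Finset.sum_eq_single (Fin.last d)]
      · show ((c.1 (Fin.last d) : ℤ) : ZMod p) * (if Fin.last d = Fin.last d then (1 : ZMod p) else 0) = _
        rw [if_pos rfl, mul_one]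
      · intro i _ hi
        show _ * (if i = Fin.last d then (1 : ZMod p) else 0) = 0
        rw [if_neg hi, mul_zero]
      · intro h; exact absurd (mem_univ _) h
    have e2 : ∑ i : Fin (d - 1), ((Sum.elim c.1 c.2 (Sum.inr i : Bs d) : ℤ) : ZMod p) *
        bv (none : Option (ZMod p × ZMod p)) (Sum.inr i : Bs d) = 0 :=
      Finset.sum_eq_zero fun i _ => mul_zero _
    rw [e1, e2, add_zero]
    exact h'
  | some z =>
    have h' : IsSquare (phi c z.1 z.2) := h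
    have e : ∑ i : Fin (d + 1), ((Sum.elim c.1 c.2 (Sum.inl i : Bs d) : ℤ) : ZMod p) *
        bv (some z) (Sum.inl i : Bs d) + ∑ i : Fin (d - 1), ((Sum.elim c.1 c.2 (Sum.inr i : Bs d) : ℤ) : ZMod p) *
        bv (some z) (Sum.inr i : Bs d) = phi c z.1 z.2 := by
      unfold phi
      rw [Finset.sum_mul]
      refine congrArg₂ _ rfl (Finset.sum_congr rfl fun i _ => ?_)
      show ((c.2 i : ℤ) : ZMod p) * (z.1 ^ (i : ℕ) * z.2) = ((c.2 i : ℤ) : ZMod p) * z.1 ^ (i : ℕ) * z.2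
      rw [mul_assoc]
    rw [e]
    exact h'

theorem dens_R1 {d : ℕ} (hd : 1 ≤ d) : Dens (R1 d) (1 / 3) := by
  intro p hp h11 z
  have : Fact p.Prime := ⟨hp⟩
  rw [S13_card hd]
  exact dens_sq (by omega) hd z

theorem dens_R2 {n d : ℕ} (hn : 2 ≤ n) (hd : 1 ≤ d) : Dens (R2 n d) (1 / 6) := by
  intro p hp h11 z
  have : Fact p.Prime := ⟨hp⟩
  rw [Fintype.card_prod, Fintype.card_fin, S13_card hd]
  exact dens_form h11 hn hd z

theorem adm_sq {A B : ℤ} {d : ℕ} (hd : 1 ≤ d) (a : Bs d → ℤ) (P : Pt ℚ A B)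
    (h : IsSquare (∑ k, (a k : ℚ) * bv (op P) k)) : Adm (R1 d) a P := by
  intro p hp h11 hdsc
  have h1 : Ov ((Equiv.sumArrowEquivProdArrow (Fin (d + 1)) (Fin (d - 1)) ℤ) a) P := by
    rw [← Res_ov, Equiv.symm_apply_apply]
    exact h
  have h2 := S13_sum _ _ (loc hp hd _ P h1)
  have e : Sum.elim ((Equiv.sumArrowEquivProdArrow (Fin (d + 1)) (Fin (d - 1)) ℤ) a).1
      ((Equiv.sumArrowEquivProdArrow (Fin (d + 1)) (Fin (d - 1)) ℤ) a).2 = a := by
    funext k
    rcases k with i | i <;> rfl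
  rw [e] at h2
  exact h2

theorem adm_form {A B : ℤ} {n d : ℕ} (hd : 1 ≤ d) (a : Fin (n + 1) × Bs d → ℤ) (P : Pt ℚ A B) (u v : ℚ)
    (huv : u ≠ 0 ∨ v ≠ 0) (h : FB (fun t => ((a t : ℤ) : ℚ)) (op P) u v = 0) : Adm (R2 n d) a P := by
  intro p hp h11 hdsc
  exact locB hp hd a P u v huv h

end MWS
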