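import Pool.Agent.Lib.MP_10e784_agBS.S12
import Pool.Agent.Lib.MP_10e784_agBS.S13

/-!
# Block S, S14: all double covers of all elliptic curves and all the curves of bidegree `(2 d, n)` on `E × ℙ¹`
-/

namespace MWS

open Finset

private theorem S14_fin {ι : Type} [Fintype ι] [DecidableEq ι] (H : ℕ) (Q : (ℤ × ℤ) × (ι → ℤ) → Prop) :
    Finite {z : (ℤ × ℤ) × (ι → ℤ) // dsc z.1.1 z.1.2 ≠ 0 ∧ |z.1.1| ≤ (H : ℤ) ^ 2 ∧ |z.1.2| ≤ (H : ℤ) ^ 3 ∧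
      (∀ i, |z.2 i| ≤ (H : ℤ)) ∧ Q z} := by
  let f : {z : (ℤ × ℤ) × (ι → ℤ) // dsc z.1.1 z.1.2 ≠ 0 ∧ |z.1.1| ≤ (H : ℤ) ^ 2 ∧ |z.1.2| ≤ (H : ℤ) ^ 3 ∧
      (∀ i, |z.2 i| ≤ (H : ℤ)) ∧ Q z} → ((Icc (-(H : ℤ) ^ 2) ((H : ℤ) ^ 2) : Finset ℤ) ×
        (Icc (-(H : ℤ) ^ 3) ((H : ℤ) ^ 3) : Finset ℤ)) × (ι → (Icc (-(H : ℤ)) H : Finset ℤ)) :=
    fun z => ((⟨z.1.1.1, mem_Icc.2 (abs_le.1 z.2.2.1)⟩, ⟨z.1.1.2, mem_Icc.2 (abs_le.1 z.2.2.2.1)⟩),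
      fun i => ⟨z.1.2 i, mem_Icc.2 (abs_le.1 (z.2.2.2.2.1 i))⟩)
  have hf : Function.Injective f := by
    intro a b hab
    have h1 : a.1.1.1 = b.1.1.1 := congrArg (fun w => (w.1.1 : ℤ)) hab
    have h2 : a.1.1.2 = b.1.1.2 := congrArg (fun w => (w.1.2 : ℤ)) hab
    have h3 : a.1.2 = b.1.2 := by
      funext i
      exact congrArg (fun w => (w.2 i : ℤ)) hab
    exact Subtype.ext (Prod.ext (Prod.ext h1 h2) h3)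
  exact Finite.of_injective f hf

/-- comparison of two counting problems -/
private theorem S14_le {ι : Type} [Fintype ι] [DecidableEq ι] (H : ℕ) (Q Q' : (ℤ × ℤ) × (ι → ℤ) → Prop)
    (h : ∀ z, dsc z.1.1 z.1.2 ≠ 0 → Q z → Q' z) :
    (Nat.card {z : (ℤ × ℤ) × (ι → ℤ) // 4 * z.1.1 ^ 3 + 27 * z.1.2 ^ 2 ≠ 0 ∧ |z.1.1| ≤ (H : ℤ) ^ 2 ∧
      |z.1.2| ≤ (H : ℤ) ^ 3 ∧ (∀ i, |z.2 i| ≤ (H : ℤ)) ∧ Q z} : ℝ) ≤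
    (Nat.card {z : (ℤ × ℤ) × (ι → ℤ) // dsc z.1.1 z.1.2 ≠ 0 ∧ |z.1.1| ≤ (H : ℤ) ^ 2 ∧
      |z.1.2| ≤ (H : ℤ) ^ 3 ∧ (∀ i, |z.2 i| ≤ (H : ℤ)) ∧ Q' z} : ℝ) := by
  have := S14_fin H Q'
  have h1 : Nat.card {z : (ℤ × ℤ) × (ι → ℤ) // 4 * z.1.1 ^ 3 + 27 * z.1.2 ^ 2 ≠ 0 ∧ |z.1.1| ≤ (H : ℤ) ^ 2 ∧
      |z.1.2| ≤ (H : ℤ) ^ 3 ∧ (∀ i, |z.2 i| ≤ (H : ℤ)) ∧ Q z} ≤
    Nat.card {z : (ℤ × ℤ) × (ι → ℤ) // dsc z.1.1 z.1.2 ≠ 0 ∧ |z.1.1| ≤ (H : ℤ) ^ 2 ∧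
      |z.1.2| ≤ (H : ℤ) ^ 3 ∧ (∀ i, |z.2 i| ≤ (H : ℤ)) ∧ Q' z} := by
    refine Nat.card_le_card_of_injective
      (fun z => ⟨z.1, z.2.1, z.2.2.1, z.2.2.2.1, z.2.2.2.2.1, h z.1 z.2.1 z.2.2.2.2.2⟩) ?_
    intro a b hab
    have h2 : a.1 = b.1 := congrArg (fun w => w.1) hab
    exact Subtype.ext h2
  exact_mod_cast h1

/-- **All double covers of all elliptic curves over `ℚ` and all the curves of bidegree `(2 d, n)`, `n ≥ 2`, on all the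
surfaces `E × ℙ¹`**, over the blocks R and P. -/
theorem all_of (hFR : FactR) (hFP : FactP) : ∃ c : ℝ, 0 < c ∧
    (∀ d : ℕ, 1 ≤ d → ∃ C : ℝ, ∀ H : ℕ, 1 ≤ H →
      (Nat.card {a : (ℤ × ℤ) × (Fin (d + 1) ⊕ Fin (d - 1) → ℤ) // 4 * a.1.1 ^ 3 + 27 * a.1.2 ^ 2 ≠ 0 ∧
        |a.1.1| ≤ (H : ℤ) ^ 2 ∧ |a.1.2| ≤ (H : ℤ) ^ 3 ∧ (∀ k, |a.2 k| ≤ (H : ℤ)) ∧
        ∃ P, IsPt a.1.1 a.1.2 P ∧ IsSquare (∑ k, (a.2 k : ℚ) * bas d P k)} : ℝ) ≤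
        C * (H : ℝ) ^ (2 * d + 5) * Real.exp (-(Real.log H) ^ c)) ∧
    (∀ n d : ℕ, 2 ≤ n → 1 ≤ d → ∃ C : ℝ, ∀ H : ℕ, 1 ≤ H →
      (Nat.card {a : (ℤ × ℤ) × (Fin (n + 1) × (Fin (d + 1) ⊕ Fin (d - 1)) → ℤ) // 4 * a.1.1 ^ 3 + 27 * a.1.2 ^ 2 ≠ 0 ∧
        |a.1.1| ≤ (H : ℤ) ^ 2 ∧ |a.1.2| ≤ (H : ℤ) ^ 3 ∧ (∀ k, |a.2 k| ≤ (H : ℤ)) ∧
        ∃ (P : Option (ℚ × ℚ)) (u v : ℚ), IsPt a.1.1 a.1.2 P ∧ (u ≠ 0 ∨ v ≠ 0) ∧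
          ∑ i : Fin (n + 1), (∑ k, (a.2 (i, k) : ℚ) * bas d P k) * u ^ (i : ℕ) * v ^ (n - (i : ℕ)) = 0} : ℝ) ≤
        C * (H : ℝ) ^ (2 * d * (n + 1) + 5) * Real.exp (-(Real.log H) ^ c)) := by
  obtain ⟨c₀, hc₀, hcore⟩ := core hFR hFP
  refine ⟨c₀, hc₀, fun d hd => ?_, fun n d hn hd => ?_⟩
  · obtain ⟨C, hC⟩ := hcore (2 * d) (1 / 3) (by norm_num) (by norm_num)
    refine ⟨C, fun H hH => ?_⟩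
    have hcard : Fintype.card (Bs d) = 2 * d := by
      rw [Fintype.card_sum, Fintype.card_fin, Fintype.card_fin]
      omega
    refine le_trans ?_ (hC H hH (Bs d) hcard (R1 d) (dens_R1 hd))
    refine S14_le H (fun a => ∃ P, IsPt a.1.1 a.1.2 P ∧ IsSquare (∑ k, (a.2 k : ℚ) * bas d P k))
      (fun z => ∃ P : Pt ℚ z.1.1 z.1.2, Adm (R1 d) z.2 P) ?_
    intro z hz h
    obtain ⟨P, hP⟩ := (Res_pt hz (fun P => IsSquare (∑ k, (z.2 k : ℚ) * bas d P k))).1 h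
    simp only [bas_eq] at hP
    exact ⟨P, adm_sq hd z.2 P hP⟩
  · obtain ⟨C, hC⟩ := hcore (2 * d * (n + 1)) (1 / 6) (by norm_num) (by norm_num)
    refine ⟨C, fun H hH => ?_⟩
    have hcard : Fintype.card (Fin (n + 1) × Bs d) = 2 * d * (n + 1) := by
      rw [Fintype.card_prod, Fintype.card_sum, Fintype.card_fin, Fintype.card_fin, Fintype.card_fin, mul_comm]
      congr 1
      omega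
    refine le_trans ?_ (hC H hH (Fin (n + 1) × Bs d) hcard (R2 n d) (dens_R2 hn hd))
    refine S14_le H (fun a => ∃ (P : Option (ℚ × ℚ)) (u v : ℚ), IsPt a.1.1 a.1.2 P ∧ (u ≠ 0 ∨ v ≠ 0) ∧
          ∑ i : Fin (n + 1), (∑ k, (a.2 (i, k) : ℚ) * bas d P k) * u ^ (i : ℕ) * v ^ (n - (i : ℕ)) = 0)
      (fun z => ∃ P : Pt ℚ z.1.1 z.1.2, Adm (R2 n d) z.2 P) ?_
    rintro z hz ⟨P, u, v, h1, h2, h3⟩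
    obtain ⟨Q, hQ⟩ := (Res_pt hz (fun P => ∑ i : Fin (n + 1), (∑ k, (z.2 (i, k) : ℚ) * bas d P k) * u ^ (i : ℕ) *
      v ^ (n - (i : ℕ)) = 0)).1 ⟨P, h1, h3⟩
    refine ⟨Q, adm_form hd z.2 Q u v h2 ?_⟩
    unfold FB
    simpa only [bas_eq] using hQ

end MWS
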