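import Pool.Agent.Lib.MP_10e784_agBS.S3

/-!
# Block S, LEAF S5: the sum over all curves of a weight which depends on the reductions

PROOF.  `box_crt` for `ι = Fin 2`, `h = ![H ^ 2, H ^ 3]` (`q = ∏ S p ≤ H ≤ H ^ 2, H ^ 3`, `H ≥ 1` because `q ≥ 1`), `f p b = 1 - κ` if `(b 0, b 1) ∈ G p`, else `1`;
`∑_b f p b = p² - κ #(G p) ≤ (1 - κ γ p) p²`, `g p = 1 - κ γ p`, `(1 - κ) ^ #{p ∈ S : z mod p ∈ G p} = ∏_(p ∈ S) f p (z mod p)` (`prod_ite`, `prod_const`);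
`∏ (1 - κ γ p) ≤ exp (- κ ∑ γ p)` (`1 - t ≤ exp (-t)`; the factors are `≥ 0` because `∑_b f p b ≥ 0`).  The bijection of the pairs `(A, B)` of the box with the functions `Fin 2 → ℤ` of the box
(`finTwoArrowEquiv`, `Finset.sum_bij'`).  `4 H² · 4 H³ = 16 H⁵`.
-/

namespace MWS

open Finset

open Classical in
private theorem S5_sum {p : ℕ} [NeZero p] (κ : ℝ) (G : Set (ZMod p × ZMod p)) :
    ∑ b : Fin 2 → ZMod p, (if (b 0, b 1) ∈ G then 1 - κ else 1) = (p : ℝ) ^ 2 - κ * (Nat.card G : ℝ) := by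
  have h1 : ∑ b : Fin 2 → ZMod p, (if (b 0, b 1) ∈ G then 1 - κ else 1) =
      ∑ z : ZMod p × ZMod p, (if z ∈ G then 1 - κ else 1) :=
    Fintype.sum_equiv (finTwoArrowEquiv (ZMod p)) _ _ fun b => rfl
  have h2 : ∀ z : ZMod p × ZMod p, (if z ∈ G then 1 - κ else (1 : ℝ)) = 1 - κ * (if z ∈ G then 1 else 0) := by
    intro z
    split_ifs <;> ring
  rw [h1, Finset.sum_congr rfl fun z _ => h2 z, Finset.sum_sub_distrib, ← Finset.mul_sum, Finset.sum_boole]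
  have h3 : Nat.card G = (univ.filter fun z : ZMod p × ZMod p => z ∈ G).card := by
    rw [Nat.card_eq_fintype_card, Fintype.card_subtype]
  rw [h3]
  simp [ZMod.card, sq]

open Classical in
theorem sum_curves (S : Finset ℕ) (hS : ∀ p ∈ S, p.Prime) {H : ℕ} (hq : ∏ p ∈ S, p ≤ H) {κ : ℝ} (h0 : 0 ≤ κ)
    (h1 : κ ≤ 1) (G : (p : ℕ) → Set (ZMod p × ZMod p)) (γ : ℕ → ℝ)
    (hγ : ∀ p ∈ S, γ p * (p : ℝ) ^ 2 ≤ (Nat.card (G p) : ℝ)) :
    ∑ z ∈ Icc (-((H : ℤ) ^ 2)) ((H : ℤ) ^ 2) ×ˢ Icc (-((H : ℤ) ^ 3)) ((H : ℤ) ^ 3),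
      (1 - κ) ^ (S.filter fun p => ((z.1 : ZMod p), (z.2 : ZMod p)) ∈ G p).card ≤
      16 * (H : ℝ) ^ 5 * Real.exp (-(κ * ∑ p ∈ S, γ p)) := by
  have hH : 1 ≤ H := le_trans (Nat.one_le_iff_ne_zero.2 (Finset.prod_ne_zero_iff.2 fun p hp => (hS p hp).ne_zero)) hq
  let h : Fin 2 → ℕ := ![H ^ 2, H ^ 3]
  let f : (p : ℕ) → (Fin 2 → ZMod p) → ℝ := fun p b => if (b 0, b 1) ∈ G p then 1 - κ else 1
  have hf0 : ∀ p b, 0 ≤ f p b := by
    intro p b
    show 0 ≤ if (b 0, b 1) ∈ G p then 1 - κ else 1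
    split_ifs <;> linarith
  have hle : ∀ i, ∏ p ∈ S, p ≤ h i := by
    intro i
    refine hq.trans ?_
    fin_cases i
    · exact Nat.le_self_pow (by norm_num) H
    · exact Nat.le_self_pow (by norm_num) H
  have hg : ∀ p ∈ S, ∀ [NeZero p], ∑ b : Fin 2 → ZMod p, f p b ≤ (1 - κ * γ p) * (p : ℝ) ^ Fintype.card (Fin 2) := by
    intro p hp _
    have e1 : ∑ b : Fin 2 → ZMod p, f p b = (p : ℝ) ^ 2 - κ * (Nat.card (G p) : ℝ) := S5_sum κ (G p)
    rw [e1, Fintype.card_fin]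
    have := mul_le_mul_of_nonneg_left (hγ p hp) h0
    nlinarith
  have key := box_crt S hS h hle f hf0 (fun p => 1 - κ * γ p) hg
  have e2 : ∏ i, (4 * (h i : ℝ)) = 16 * (H : ℝ) ^ 5 := by
    rw [Fin.prod_univ_two]
    show 4 * ((H ^ 2 : ℕ) : ℝ) * (4 * ((H ^ 3 : ℕ) : ℝ)) = _
    push_cast
    ring
  have hnn : ∀ p ∈ S, 0 ≤ 1 - κ * γ p := by
    intro p hp
    have : NeZero p := ⟨(hS p hp).ne_zero⟩
    have h2 := hg p hp
    have h3 : 0 ≤ ∑ b : Fin 2 → ZMod p, f p b := Finset.sum_nonneg fun b _ => hf0 p b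
    have h4 : (0 : ℝ) < (p : ℝ) ^ Fintype.card (Fin 2) := by
      have : (0 : ℝ) < p := by exact_mod_cast (hS p hp).pos
      positivity
    by_contra hcon
    push Not at hcon
    have := mul_neg_of_neg_of_pos hcon h4
    linarith
  have e3 : ∏ p ∈ S, (1 - κ * γ p) ≤ Real.exp (-(κ * ∑ p ∈ S, γ p)) := by
    rw [Finset.mul_sum, ← Finset.sum_neg_distrib, Real.exp_sum]
    refine Finset.prod_le_prod hnn fun p _ => ?_
    have := Real.add_one_le_exp (-(κ * γ p))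
    linarith
  have e4 : ∑ z ∈ Icc (-((H : ℤ) ^ 2)) ((H : ℤ) ^ 2) ×ˢ Icc (-((H : ℤ) ^ 3)) ((H : ℤ) ^ 3),
      (1 - κ) ^ (S.filter fun p => ((z.1 : ZMod p), (z.2 : ZMod p)) ∈ G p).card =
      ∑ c ∈ Fintype.piFinset (fun i => Icc (-(h i : ℤ)) (h i)), ∏ p ∈ S, f p (fun i => ((c i : ℤ) : ZMod p)) := by
    refine Finset.sum_nbij' (fun z => ![z.1, z.2]) (fun c => (c 0, c 1)) ?_ ?_ ?_ ?_ ?_
    · intro z hz
      rw [mem_product, mem_Icc, mem_Icc] at hz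
      rw [Fintype.mem_piFinset]
      intro i
      fin_cases i
      · simpa [h] using hz.1
      · simpa [h] using hz.2
    · intro c hc
      rw [Fintype.mem_piFinset] at hc
      rw [mem_product]
      have c0 := hc 0
      have c1 := hc 1
      refine ⟨?_, ?_⟩
      · simpa [h] using c0
      · simpa [h] using c1
    · intro z _
      rfl
    · intro c _
      funext i
      fin_cases i <;> rfl
    · intro z _
      show _ = ∏ p ∈ S, if ((z.1 : ZMod p), (z.2 : ZMod p)) ∈ G p then 1 - κ else 1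
      rw [Finset.prod_ite, Finset.prod_const_one, mul_one, Finset.prod_const]
  rw [e4]
  refine key.trans ?_
  rw [e2]
  exact mul_le_mul_of_nonneg_left e3 (by positivity)

end MWS
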