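import Pool.Agent.Lib.MP_10e784_agBS.S4
import Pool.Agent.Lib.MP_10e784_agBS.S6
import Pool.Agent.Lib.MP_10e784_agBS.S7

/-!
# Block S, LEAF S8: one curve with few classes modulo `2`

PROOF.  `L = primorial Y ^ e`, `T = {p ∈ S : (A, B) mod p ∈ Gk}`.  For `p ∈ T`: `p ∤ dsc A B` (`(dsc A B : ZMod p) = 4 A³ + 27 B² ≠ 0`), `na A B p + 1 = nz + 1 ∣ L` (`Gk_dvd`),
`∏_T p ≤ ∏_S p ≤ H`.  If `T` has an element `p`: `2 p + 1 ≤ 3 X ≤ 2 ^ e ≤ L` (`Y ≥ 4 U ≥ 4`, so `2 ≤ primorial Y`: `2 ∣ primorial Y`), `few_cls`, `fixed_curve` with `n = L ^ (t + 1)`.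
If `T = ∅`: the number of all `c` in the box is `(2 H + 1) ^ N ≤ (4 H) ^ N ≤ L ^ (t + 1) (4 H) ^ N` (`1 ≤ ∏_S p ≤ H`; `VM_card`, `Fintype.card_piFinset`).
-/

namespace MWS

open Finset

private theorem S8_primorial {Y : ℕ} (hY : 4 ≤ Y) : 2 ≤ primorial Y := by
  refine Nat.le_of_dvd (primorial_pos Y) ?_
  unfold primorial
  exact Finset.dvd_prod_of_mem (f := fun p => p) (a := 2)
    (Finset.mem_filter.2 ⟨Finset.mem_range.2 (by omega), Nat.prime_two⟩)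

private theorem S8_box {ι : Type} [Fintype ι] [DecidableEq ι] {H : ℕ} (hH : 1 ≤ H) (Q : (ι → ℤ) → Prop) :
    (Nat.card {c : ι → ℤ // (∀ i, |c i| ≤ (H : ℤ)) ∧ Q c} : ℝ) ≤ (4 * (H : ℝ)) ^ Fintype.card ι := by
  classical
  rw [VM_card H Q]
  have h1 : ((Fintype.piFinset (fun _ : ι => Icc (-(H : ℤ)) H)).filter Q).card ≤ (2 * H + 1) ^ Fintype.card ι := by
    refine (card_filter_le _ _).trans ?_
    rw [Fintype.card_piFinset, Finset.prod_const, Int.card_Icc, card_univ]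
    refine Nat.pow_le_pow_left ?_ _
    omega
  have h2 : (((Fintype.piFinset (fun _ : ι => Icc (-(H : ℤ)) H)).filter Q).card : ℝ) ≤ ((2 * H + 1 : ℕ) : ℝ) ^ Fintype.card ι := by
    exact_mod_cast h1
  refine h2.trans ?_
  have h3 : (1 : ℝ) ≤ H := by exact_mod_cast hH
  refine pow_le_pow_left₀ (by positivity) ?_ _
  push_cast
  linarith

open Classical in
theorem one_curve {ι : Type} [Fintype ι] [DecidableEq ι] {κ : ℝ} (h0 : 0 ≤ κ) (h1 : κ ≤ 1)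
    {R : (p : ℕ) → Option (ZMod p × ZMod p) → Set (ι → ZMod p)} (hR : Dens R κ) {A B : ℤ} (hd : dsc A B ≠ 0) {t : ℕ}
    (hF : Few A B t) (S : Finset ℕ) {X U k Y e H : ℕ} (hS : ∀ p ∈ S, p.Prime ∧ 11 ≤ p ∧ p ≤ X) (hU : 1 ≤ U)
    (hY : 4 * U ≤ Y) (hX : 3 * X ≤ Y * U ^ k) (he : 3 * X ≤ 2 ^ e) (hq : ∏ p ∈ S, p ≤ H) :
    (Nat.card {c : ι → ℤ // (∀ i, |c i| ≤ (H : ℤ)) ∧ ∃ P : Pt ℚ A B, Adm R c P} : ℝ) ≤
      ((primorial Y : ℝ) ^ e) ^ (t + 1) * ((4 * (H : ℝ)) ^ Fintype.card ι *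
        (1 - κ) ^ (S.filter fun p => Gk p U k ((A : ZMod p), (B : ZMod p))).card) := by
  have hprod : ∀ T : Finset ℕ, T ⊆ S → ∏ p ∈ T, p ≤ ∏ p ∈ S, p := fun T hT =>
    Finset.prod_le_prod_of_subset_of_one_le' hT fun p hp _ => (hS p hp).1.one_lt.le
  have hH : 1 ≤ H := by
    have := (hprod ∅ (Finset.empty_subset S)).trans hq
    simpa using this
  have hP : 2 ≤ primorial Y := S8_primorial (by omega)
  obtain ⟨T, hTdef⟩ : ∃ T : Finset ℕ, T = S.filter fun p => Gk p U k ((A : ZMod p), (B : ZMod p)) := ⟨_, rfl⟩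
  rw [← hTdef]
  have hTS : T ⊆ S := by
    rw [hTdef]
    exact Finset.filter_subset _ _
  rcases T.eq_empty_or_nonempty with hT | ⟨p, hp⟩
  · rw [hT, Finset.card_empty, pow_zero, mul_one]
    refine (S8_box hH _).trans ?_
    have h2 : (1 : ℝ) ≤ ((primorial Y : ℝ) ^ e) ^ (t + 1) := by
      refine one_le_pow₀ (one_le_pow₀ ?_)
      have : (2 : ℝ) ≤ primorial Y := by exact_mod_cast hP
      linarith
    have h3 : (0 : ℝ) ≤ (4 * (H : ℝ)) ^ Fintype.card ι := by positivity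
    nlinarith
  · have hG : ∀ q ∈ T, Gk q U k ((A : ZMod q), (B : ZMod q)) := fun q hq => by
      rw [hTdef] at hq
      exact (Finset.mem_filter.1 hq).2
    have hdv : ∀ q ∈ T, ¬ (q : ℤ) ∣ dsc A B := by
      intro q hq hdvd
      refine (hG q hq).1 ?_
      have := (ZMod.intCast_zmod_eq_zero_iff_dvd (dsc A B) q).2 hdvd
      simpa [dsc] using this
    have hT' : ∀ q ∈ T, q.Prime ∧ 11 ≤ q ∧ ¬ (q : ℤ) ∣ dsc A B ∧ na A B q + 1 ∣ primorial Y ^ e := by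
      intro q hq
      obtain ⟨a1, a2, a3⟩ := hS q (hTS hq)
      exact ⟨a1, a2, hdv q hq, Gk_dvd a1 a3 (hG q hq) hU hY hX he⟩
    obtain ⟨b1, b2, b3⟩ := hS p (hTS hp)
    have hL : 2 * p + 1 ≤ primorial Y ^ e := by
      have : 2 ^ e ≤ primorial Y ^ e := Nat.pow_le_pow_left hP e
      omega
    obtain ⟨r, hr⟩ := few_cls hd hF b1 b2 (hdv p hp) hL
    have key := fixed_curve h0 h1 hR r hr T hT' (H := H) ((hprod T hTS).trans hq)
    push_cast at key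
    exact key

end MWS
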