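import Pool.Agent.Lib.MP_10e784_agBS.S5
import Pool.Agent.Lib.MP_10e784_agBS.S8

/-!
# Block S, LEAF S9: all curves

PROOF.  The number of the statement is the sum over the `(A, B)` of the box with `dsc A B ≠ 0` of `#{c : ..}` (as in `C9_split` of `agV/C9`: `Nat.card_sigma`).
`(A, B)` with `Few A B t`: `one_curve`, and the sum of `(1 - κ) ^ ..` over all `(A, B)` of the box is at most `16 H⁵ exp (-κ ∑ γ)` (`sum_curves`, `G p = {z | Gk p U k z}`; all the terms are `≥ 0`).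
The other `(A, B)`: their number is at most `C H⁵ (1 + log H) / 2 ^ t` (`hbad`), each with at most `(2 H + 1) ^ N ≤ (4 H) ^ N` vectors `c` (`VM_card`, `Fintype.card_piFinset`).
-/

namespace MWS

open Finset

private theorem S9_fin {ι : Type} [Fintype ι] [DecidableEq ι] (H : ℕ) (Q : (ι → ℤ) → Prop) :
    Finite {c : ι → ℤ // (∀ t, |c t| ≤ (H : ℤ)) ∧ Q c} := by
  let f : {c : ι → ℤ // (∀ t, |c t| ≤ (H : ℤ)) ∧ Q c} → ι → (Icc (-(H : ℤ)) H : Finset ℤ) :=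
    fun c t => ⟨c.1 t, mem_Icc.2 (abs_le.1 (c.2.1 t))⟩
  have hf : Function.Injective f := by
    intro a b hab
    refine Subtype.ext (funext fun t => ?_)
    exact congrArg Subtype.val (congrFun hab t)
  exact Finite.of_injective f hf

private theorem S9_box {ι : Type} [Fintype ι] [DecidableEq ι] {H : ℕ} (hH : 1 ≤ H) (Q : (ι → ℤ) → Prop) :
    (Nat.card {c : ι → ℤ // (∀ t, |c t| ≤ (H : ℤ)) ∧ Q c} : ℝ) ≤ (4 * (H : ℝ)) ^ Fintype.card ι := by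
  classical
  rw [VM_card]
  have h1 : ((Fintype.piFinset (fun _ : ι => Icc (-(H : ℤ)) H)).filter Q).card ≤ (4 * H) ^ Fintype.card ι := by
    refine (card_filter_le _ _).trans ?_
    rw [Fintype.card_piFinset, prod_const, card_univ]
    refine Nat.pow_le_pow_left ?_ _
    rw [Int.card_Icc]
    omega
  exact_mod_cast h1

theorem total {ι : Type} [Fintype ι] [DecidableEq ι] {κ : ℝ} (h0 : 0 ≤ κ) (h1 : κ ≤ 1)
    {R : (p : ℕ) → Option (ZMod p × ZMod p) → Set (ι → ZMod p)} (hR : Dens R κ) {C : ℝ} {t H : ℕ}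
    (hbad : (Nat.card {z : ℤ × ℤ // |z.1| ≤ (H : ℤ) ^ 2 ∧ |z.2| ≤ (H : ℤ) ^ 3 ∧ dsc z.1 z.2 ≠ 0 ∧
      ¬ Few z.1 z.2 t} : ℝ) * 2 ^ t ≤ C * (H : ℝ) ^ 5 * (1 + Real.log H))
    (S : Finset ℕ) {X U k Y e : ℕ} (hS : ∀ p ∈ S, p.Prime ∧ 11 ≤ p ∧ p ≤ X) (hU : 1 ≤ U)
    (hY : 4 * U ≤ Y) (hX : 3 * X ≤ Y * U ^ k) (he : 3 * X ≤ 2 ^ e) (hq : ∏ p ∈ S, p ≤ H) (γ : ℕ → ℝ)
    (hγ : ∀ p ∈ S, γ p * (p : ℝ) ^ 2 ≤ (Nat.card {z // Gk p U k z} : ℝ)) :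
    (Nat.card {z : (ℤ × ℤ) × (ι → ℤ) // dsc z.1.1 z.1.2 ≠ 0 ∧ |z.1.1| ≤ (H : ℤ) ^ 2 ∧ |z.1.2| ≤ (H : ℤ) ^ 3 ∧
      (∀ i, |z.2 i| ≤ (H : ℤ)) ∧ ∃ P : Pt ℚ z.1.1 z.1.2, Adm R z.2 P} : ℝ) ≤
      (4 * (H : ℝ)) ^ Fintype.card ι * (((primorial Y : ℝ) ^ e) ^ (t + 1) *
        (16 * (H : ℝ) ^ 5 * Real.exp (-(κ * ∑ p ∈ S, γ p))) + C * (H : ℝ) ^ 5 * (1 + Real.log H) / 2 ^ t) := by
  classical
  have hH : 1 ≤ H := by
    refine le_trans ?_ hq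
    refine Nat.one_le_iff_ne_zero.2 (prod_ne_zero_iff.2 fun p hp => ?_)
    have := (hS p hp).2.1
    omega
  set B0 : Finset (ℤ × ℤ) := Icc (-((H : ℤ) ^ 2)) ((H : ℤ) ^ 2) ×ˢ Icc (-((H : ℤ) ^ 3)) ((H : ℤ) ^ 3) with hB0
  have hmem0 : ∀ z : ℤ × ℤ, z ∈ B0 ↔ |z.1| ≤ (H : ℤ) ^ 2 ∧ |z.2| ≤ (H : ℤ) ^ 3 := by
    intro z
    rw [hB0, mem_product, mem_Icc, mem_Icc, abs_le, abs_le]
  set I : Finset (ℤ × ℤ) := B0.filter (fun z => dsc z.1 z.2 ≠ 0) with hI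
  have hmem : ∀ z : ℤ × ℤ, z ∈ I ↔ (|z.1| ≤ (H : ℤ) ^ 2 ∧ |z.2| ≤ (H : ℤ) ^ 3) ∧ dsc z.1 z.2 ≠ 0 := by
    intro z
    rw [hI, mem_filter, hmem0]
  have hfin : ∀ z : ℤ × ℤ, Finite {c : ι → ℤ // (∀ i, |c i| ≤ (H : ℤ)) ∧ ∃ P : Pt ℚ z.1 z.2, Adm R c P} :=
    fun z => S9_fin H _
  have hW : Nat.card {z : (ℤ × ℤ) × (ι → ℤ) // dsc z.1.1 z.1.2 ≠ 0 ∧ |z.1.1| ≤ (H : ℤ) ^ 2 ∧
      |z.1.2| ≤ (H : ℤ) ^ 3 ∧ (∀ i, |z.2 i| ≤ (H : ℤ)) ∧ ∃ P : Pt ℚ z.1.1 z.1.2, Adm R z.2 P} =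
      ∑ z ∈ I, Nat.card {c : ι → ℤ // (∀ i, |c i| ≤ (H : ℤ)) ∧ ∃ P : Pt ℚ z.1 z.2, Adm R c P} := by
    rw [← Finset.sum_coe_sort I (fun z => Nat.card {c : ι → ℤ // (∀ i, |c i| ≤ (H : ℤ)) ∧
      ∃ P : Pt ℚ z.1 z.2, Adm R c P}), ← Nat.card_sigma]
    refine Nat.card_congr
      { toFun := fun z => ⟨⟨z.1.1, (hmem _).2 ⟨⟨z.2.2.1, z.2.2.2.1⟩, z.2.1⟩⟩, ⟨z.1.2, z.2.2.2.2⟩⟩
        invFun := fun z => ⟨(z.1.1, z.2.1), ((hmem _).1 z.1.2).2, ((hmem _).1 z.1.2).1.1,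
          ((hmem _).1 z.1.2).1.2, z.2.2⟩
        left_inv := fun z => rfl
        right_inv := fun z => rfl }
  rw [hW]
  push_cast
  have h4 : (0 : ℝ) ≤ (4 * (H : ℝ)) ^ Fintype.card ι := by positivity
  have hbadc : (((I.filter fun z => ¬ Few z.1 z.2 t).card : ℕ) : ℝ) =
      (Nat.card {z : ℤ × ℤ // |z.1| ≤ (H : ℤ) ^ 2 ∧ |z.2| ≤ (H : ℤ) ^ 3 ∧ dsc z.1 z.2 ≠ 0 ∧
      ¬ Few z.1 z.2 t} : ℝ) := by
    rw [Nat.subtype_card (I.filter fun z => ¬ Few z.1 z.2 t)]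
    intro z
    rw [mem_filter, hmem, and_assoc, and_assoc]
  rw [← Finset.sum_filter_add_sum_filter_not I (fun z => Few z.1 z.2 t), mul_add]
  refine add_le_add ?_ ?_
  · have hsum := sum_curves S (fun p hp => (hS p hp).1) hq h0 h1 (fun p => {z | Gk p U k z}) γ hγ
    have hone : ∀ z ∈ I.filter (fun z => Few z.1 z.2 t),
        (Nat.card {c : ι → ℤ // (∀ i, |c i| ≤ (H : ℤ)) ∧ ∃ P : Pt ℚ z.1 z.2, Adm R c P} : ℝ) ≤
        ((primorial Y : ℝ) ^ e) ^ (t + 1) * ((4 * (H : ℝ)) ^ Fintype.card ι *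
        (1 - κ) ^ (S.filter fun p => ((z.1 : ZMod p), (z.2 : ZMod p)) ∈ {z | Gk p U k z}).card) := by
      intro z hz
      rw [mem_filter, hmem] at hz
      have h := one_curve h0 h1 hR hz.1.2 hz.2 S hS hU hY hX he hq
      refine h.trans (le_of_eq ?_)
      congr 3
    refine (sum_le_sum hone).trans ?_
    have hκ : 0 ≤ 1 - κ := by linarith
    calc ∑ z ∈ I.filter (fun z => Few z.1 z.2 t), ((primorial Y : ℝ) ^ e) ^ (t + 1) *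
          ((4 * (H : ℝ)) ^ Fintype.card ι *
          (1 - κ) ^ (S.filter fun p => ((z.1 : ZMod p), (z.2 : ZMod p)) ∈ {z | Gk p U k z}).card)
        ≤ ∑ z ∈ B0, ((primorial Y : ℝ) ^ e) ^ (t + 1) * ((4 * (H : ℝ)) ^ Fintype.card ι *
          (1 - κ) ^ (S.filter fun p => ((z.1 : ZMod p), (z.2 : ZMod p)) ∈ {z | Gk p U k z}).card) := by
          refine sum_le_sum_of_subset_of_nonneg ((filter_subset _ _).trans (filter_subset _ _)) ?_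
          intro z _ _
          positivity
      _ = ((primorial Y : ℝ) ^ e) ^ (t + 1) * ((4 * (H : ℝ)) ^ Fintype.card ι *
          ∑ z ∈ B0, (1 - κ) ^ (S.filter fun p => ((z.1 : ZMod p), (z.2 : ZMod p)) ∈ {z | Gk p U k z}).card) := by
          rw [mul_sum, mul_sum]
      _ ≤ ((primorial Y : ℝ) ^ e) ^ (t + 1) * ((4 * (H : ℝ)) ^ Fintype.card ι *
          (16 * (H : ℝ) ^ 5 * Real.exp (-(κ * ∑ p ∈ S, γ p)))) := by
          refine mul_le_mul_of_nonneg_left (mul_le_mul_of_nonneg_left ?_ h4) (by positivity)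
          exact hsum
      _ = _ := by ring
  · calc ∑ z ∈ I.filter (fun z => ¬ Few z.1 z.2 t),
          (Nat.card {c : ι → ℤ // (∀ i, |c i| ≤ (H : ℤ)) ∧ ∃ P : Pt ℚ z.1 z.2, Adm R c P} : ℝ)
        ≤ ∑ _z ∈ I.filter (fun z => ¬ Few z.1 z.2 t), (4 * (H : ℝ)) ^ Fintype.card ι :=
          sum_le_sum fun z _ => S9_box hH _
      _ = (4 * (H : ℝ)) ^ Fintype.card ι * ((I.filter fun z => ¬ Few z.1 z.2 t).card : ℝ) := by
          rw [sum_const, nsmul_eq_mul, mul_comm]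
      _ ≤ _ := by
          refine mul_le_mul_of_nonneg_left ?_ h4
          rw [le_div_iff₀ (by positivity), hbadc]
          exact hbad

end MWS
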